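import Pool.Agent.Lib.MP_4318ff_ag.Spec.A4

/-!
# MP_4318ff_ag, module Y/Comb: six lines such that every line contains two multiple points form a complete quadrangle
-/

set_option autoImplicit false

namespace Pool.Agent.Lib.MP_4318ff_ag

open scoped LinearAlgebra.Projectivization

section comb

variable {k : Type} [Field k] {r : ℕ} (C : Config k r)

open Classical in
/-- The lines through `P` as a finite set. -/
noncomputable def thr (P : Pt k) : Finset (Fin r) := Finset.univ.filter (fun i => C.ℓ i ⬝ᵥ P.rep = 0)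

theorem mem_thr (P : Pt k) (i : Fin r) : i ∈ thr C P ↔ i ∈ C.through P := by
  classical
  unfold thr
  rw [Finset.mem_filter]
  exact ⟨fun h => h.2, fun h => ⟨Finset.mem_univ _, h⟩⟩

theorem card_thr (P : Pt k) : (thr C P).card = (C.through P).ncard := by
  classical
  rw [← Set.ncard_coe_finset]
  congr 1
  ext i
  rw [Finset.mem_coe, mem_thr]

theorem thr_inter (hBas : BasStmt) (P Q : Pt k) (hPQ : P ≠ Q) : (thr C P ∩ thr C Q).card ≤ 1 := by
  classical
  rw [Finset.card_le_one]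
  intro i hi j hj
  rw [Finset.mem_inter, mem_thr, mem_thr] at hi hj
  by_contra hij
  exact hPQ ((hBas k r C).1 i j P Q hij hi.1 hj.1 hi.2 hj.2)

end comb

section six

variable {k : Type} [Field k] (C : Config k 6)

theorem y_other (h2 : ∀ i, ∃ P ∈ C.M, ∃ Q ∈ C.M, P ≠ Q ∧ i ∈ C.through P ∧ i ∈ C.through Q) (i : Fin 6) (T : Pt k) :
    ∃ Q ∈ C.M, Q ≠ T ∧ i ∈ C.through Q := by
  obtain ⟨P, hP, Q, hQ, hPQ, hiP, hiQ⟩ := h2 i
  by_cases h : P = T
  · exact ⟨Q, hQ, fun h' => hPQ (h.trans h'.symm), hiQ⟩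
  · exact ⟨P, hP, h, hiP⟩

theorem y_comb1 (hBas : BasStmt)
    (h2 : ∀ i, ∃ P ∈ C.M, ∃ Q ∈ C.M, P ≠ Q ∧ i ∈ C.through P ∧ i ∈ C.through Q) (T : Pt k) (hT : T ∈ C.M) :
    (thr C T).card = 3 := by
  classical
  have hM : ∀ P ∈ C.M, 3 ≤ (thr C P).card := fun P hP => by rw [card_thr]; exact hP
  by_contra hne
  have h4 : 4 ≤ (thr C T).card := by have := hM T hT; omega
  -- every line through `T` contains a point whose other lines are the lines not through `T`
  have key : ∀ a ∈ thr C T, ∃ Q ∈ C.M, Q ≠ T ∧ a ∈ C.through Q ∧ (Finset.univ \ thr C T) ⊆ thr C Q ∧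
      2 ≤ (Finset.univ \ thr C T).card := by
    intro a ha
    obtain ⟨Q, hQ, hQT, haQ⟩ := y_other C h2 a T
    refine ⟨Q, hQ, hQT, haQ, ?_⟩
    have h5 : thr C Q \ {a} ⊆ Finset.univ \ thr C T := by
      intro i hi
      rw [Finset.mem_sdiff, Finset.mem_singleton] at hi
      rw [Finset.mem_sdiff]
      refine ⟨Finset.mem_univ _, fun hiT => ?_⟩
      have h6 := thr_inter C hBas Q T hQT
      rw [Finset.card_le_one] at h6
      exact hi.2 (h6 i (Finset.mem_inter.2 ⟨hi.1, hiT⟩) a (Finset.mem_inter.2 ⟨(mem_thr C Q a).2 haQ, ha⟩))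
    have h6 : (Finset.univ \ thr C T).card = 6 - (thr C T).card := by
      rw [Finset.card_sdiff_of_subset (Finset.subset_univ _), Finset.card_univ, Fintype.card_fin]
    have h7 : (thr C Q \ {a}).card = (thr C Q).card - 1 := by
      rw [Finset.card_sdiff_of_subset (Finset.singleton_subset_iff.2 ((mem_thr C Q a).2 haQ)), Finset.card_singleton]
    have h8 := hM Q hQ
    have h9 := Finset.card_le_card h5
    have h10 : thr C Q \ {a} = Finset.univ \ thr C T := Finset.eq_of_subset_of_card_le h5 (by omega)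
    refine ⟨?_, by omega⟩
    rw [← h10]
    exact Finset.sdiff_subset
  obtain ⟨a, ha, b, hb, hab⟩ := Finset.one_lt_card.1 (show 1 < (thr C T).card by omega)
  obtain ⟨Q, hQ, hQT, haQ, hsub, hcard⟩ := key a ha
  obtain ⟨Q', hQ', hQT', hbQ', hsub', -⟩ := key b hb
  have hQQ : Q = Q' := by
    by_contra hQQ
    have h5 := thr_inter C hBas Q Q' hQQ
    have h6 := Finset.card_le_card (Finset.subset_inter hsub hsub')
    omega
  subst hQQ
  exact hQT ((hBas k 6 C).1 a b Q T hab haQ hbQ' ((mem_thr C T a).1 ha) ((mem_thr C T b).1 hb))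

theorem y_comb2 (hBas : BasStmt)
    (h2 : ∀ i, ∃ P ∈ C.M, ∃ Q ∈ C.M, P ≠ Q ∧ i ∈ C.through P ∧ i ∈ C.through Q) (P : Pt k) (hP : P ∈ C.M)
    (Q : Pt k) (hQ : Q ∈ C.M) (hPQ : P ≠ Q) : (thr C P ∩ thr C Q).card = 1 := by
  classical
  have h1 := thr_inter C hBas P Q hPQ
  by_contra hne
  have h0 : (thr C P ∩ thr C Q).card = 0 := by omega
  have hcP := y_comb1 C hBas h2 P hP
  have hcQ := y_comb1 C hBas h2 Q hQ
  have hun : (thr C P ∪ thr C Q) = Finset.univ := by
    apply Finset.eq_univ_of_card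
    have := Finset.card_union_add_card_inter (thr C P) (thr C Q)
    rw [Fintype.card_fin]
    omega
  obtain ⟨i, hi⟩ := Finset.card_pos.1 (show 0 < (thr C P).card by omega)
  obtain ⟨R, hR, hRP, hiR⟩ := y_other C h2 i P
  have hcR := y_comb1 C hBas h2 R hR
  have h3 : thr C R \ {i} ⊆ thr C R ∩ thr C Q := by
    intro j hj
    rw [Finset.mem_sdiff, Finset.mem_singleton] at hj
    rw [Finset.mem_inter]
    refine ⟨hj.1, ?_⟩
    have hj2 : j ∈ thr C P ∪ thr C Q := by rw [hun]; exact Finset.mem_univ _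
    rcases Finset.mem_union.1 hj2 with h | h
    · exfalso
      have h6 := thr_inter C hBas R P hRP
      rw [Finset.card_le_one] at h6
      exact hj.2 (h6 j (Finset.mem_inter.2 ⟨hj.1, h⟩) i (Finset.mem_inter.2 ⟨(mem_thr C R i).2 hiR, hi⟩))
    · exact h
  have h4 : (thr C R \ {i}).card = 2 := by
    rw [Finset.card_sdiff_of_subset (Finset.singleton_subset_iff.2 ((mem_thr C R i).2 hiR)), Finset.card_singleton, hcR]
  have h5 := Finset.card_le_card h3
  have hRQ : R = Q := by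
    by_contra h
    have := thr_inter C hBas R Q h
    omega
  subst hRQ
  have h6 : i ∈ thr C P ∩ thr C R := Finset.mem_inter.2 ⟨hi, (mem_thr C R i).2 hiR⟩
  rw [Finset.card_eq_zero] at h0
  rw [h0] at h6
  exact absurd h6 (Finset.notMem_empty i)

theorem y_comb3 (hBas : BasStmt)
    (i : Fin 6) (P Q R : Pt k) (hP : P ∈ C.M) (hQ : Q ∈ C.M) (hR : R ∈ C.M) (hiP : i ∈ C.through P)
    (hiQ : i ∈ C.through Q) (hiR : i ∈ C.through R) (hPQ : P ≠ Q) : R = P ∨ R = Q := by
  classical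
  by_contra hcon
  push Not at hcon
  obtain ⟨hRP, hRQ⟩ := hcon
  have hM : ∀ P ∈ C.M, 3 ≤ (thr C P).card := fun P hP => by rw [card_thr]; exact hP
  have hc : ∀ P ∈ C.M, i ∈ C.through P → 2 ≤ (thr C P \ {i}).card := by
    intro P hP hi
    rw [Finset.card_sdiff_of_subset (Finset.singleton_subset_iff.2 ((mem_thr C P i).2 hi)), Finset.card_singleton]
    have := hM P hP
    omega
  have hd : ∀ P Q : Pt k, P ≠ Q → i ∈ C.through P → i ∈ C.through Q →
      Disjoint (thr C P \ {i}) (thr C Q \ {i}) := by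
    intro P Q hPQ hiP hiQ
    rw [Finset.disjoint_left]
    intro j hjP hjQ
    rw [Finset.mem_sdiff, Finset.mem_singleton] at hjP hjQ
    have h6 := thr_inter C hBas P Q hPQ
    rw [Finset.card_le_one] at h6
    exact hjP.2 (h6 j (Finset.mem_inter.2 ⟨hjP.1, hjQ.1⟩) i
      (Finset.mem_inter.2 ⟨(mem_thr C P i).2 hiP, (mem_thr C Q i).2 hiQ⟩))
  have h1 : (thr C P \ {i} ∪ thr C Q \ {i} ∪ thr C R \ {i}) ⊆ Finset.univ \ {i} := by
    intro j hj
    rw [Finset.mem_union, Finset.mem_union] at hj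
    rw [Finset.mem_sdiff]
    refine ⟨Finset.mem_univ _, ?_⟩
    rcases hj with (hj | hj) | hj
    · exact (Finset.mem_sdiff.1 hj).2
    · exact (Finset.mem_sdiff.1 hj).2
    · exact (Finset.mem_sdiff.1 hj).2
  have h2 := Finset.card_le_card h1
  rw [Finset.card_union_of_disjoint (Finset.disjoint_union_left.2
    ⟨hd P R (Ne.symm hRP) hiP hiR, hd Q R (Ne.symm hRQ) hiQ hiR⟩),
    Finset.card_union_of_disjoint (hd P Q hPQ hiP hiQ),
    Finset.card_sdiff_of_subset (Finset.subset_univ _), Finset.card_univ, Fintype.card_fin, Finset.card_singleton] at h2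
  have h3 := hc P hP hiP
  have h4 := hc Q hQ hiQ
  have h5 := hc R hR hiR
  omega

end six

end Pool.Agent.Lib.MP_4318ff_ag
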