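import Pool.Agent.Lib.MP_4318ff_ag.Spec.A4
import Pool.Agent.Lib.MP_4318ff_ag.A.G1

/-!
# MP_4318ff_ag, module Y/Const: functions with poles only along lines through `T`, of bounded order, and regular at suitable
exceptional curves, are constant (the borderline case of the norm argument; complete quadrangle, `n = 4`)
-/

set_option autoImplicit false

namespace Pool.Agent.Lib.MP_4318ff_ag

open scoped LinearAlgebra.Projectivization

/-- Coefficients of the minimal polynomial after scaling. -/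
theorem y_coeff_scale {k F' K' : Type*} [Field k] [Field F'] [Algebra k F'] [Field K'] [Algebra F' K']
    (O : Subalgebra k F') (hO : ∀ f : F', IsIntegral O f → f ∈ O) {G : K'} (hG : IsIntegral F' G) {D : F'}
    (hD : D ≠ 0) (h : IsIntegral O (algebraMap F' K' D * G)) (m : ℕ) :
    (minpoly F' G).coeff m * D ^ ((minpoly F' G).natDegree - m) ∈ O := by
  have h1 := coeff_minpoly_mem O hO h m
  rw [← Algebra.smul_def, IsIntegrallyClosed.minpoly_smul hD hG, Polynomial.coeff_scaleRoots] at h1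
  exact h1

section unif

variable {k : Type} [Field k]

theorem y_unit_poly (hU : UnifStmt) {O : Subalgebra k (F k)} {π : F k} (hπ : IsUnif O π) (p : Polynomial k)
    (hp : p.coeff 0 ≠ 0) : Polynomial.aeval π p ∈ O ∧ (Polynomial.aeval π p)⁻¹ ∈ O := by
  have hmem : ∀ q : Polynomial k, Polynomial.aeval π q ∈ O := by
    intro q
    have h := (Polynomial.aeval (⟨π, hπ.1⟩ : O) q).2
    have h2 : ((Polynomial.aeval (⟨π, hπ.1⟩ : O) q : O) : F k) = Polynomial.aeval π q :=
      (Polynomial.aeval_algHom_apply O.val (⟨π, hπ.1⟩ : O) q).symm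
    rwa [h2] at h
  refine ⟨hmem p, ?_⟩
  have hdecomp : Polynomial.aeval π p = π * Polynomial.aeval π p.divX + algebraMap k (F k) (p.coeff 0) := by
    conv_lhs => rw [← Polynomial.divX_mul_X_add p]
    rw [map_add, map_mul, Polynomial.aeval_X, Polynomial.aeval_C, mul_comm]
  have hπ0 : π ≠ 0 := by
    intro h
    apply hπ.2.1
    rw [h, inv_zero]
    exact O.zero_mem
  -- `c / π ∉ O`
  have hc : algebraMap k (F k) (p.coeff 0) / π ∉ O := by
    intro h
    apply hπ.2.1
    have h2 : π⁻¹ = algebraMap k (F k) (p.coeff 0)⁻¹ * (algebraMap k (F k) (p.coeff 0) / π) := by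
      rw [← mul_div_assoc, ← map_mul, inv_mul_cancel₀ hp, map_one, one_div]
    rw [h2]
    exact O.mul_mem (O.algebraMap_mem _) h
  by_contra hinv
  apply hc
  have h3 := (hU k O π hπ).2.2.1 _ (hmem p) hinv
  have h4 : algebraMap k (F k) (p.coeff 0) / π = Polynomial.aeval π p / π - Polynomial.aeval π p.divX := by
    rw [hdecomp]
    field_simp
    ring
  rw [h4]
  exact O.sub_mem h3 (hmem _)

theorem y_pow_unit (hU : UnifStmt) {π : F k} (p : Polynomial k) (hp : p ≠ 0) :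
    ∃ (a : ℕ) (u : F k), Polynomial.aeval π p = π ^ a * u ∧
      ∀ O : Subalgebra k (F k), IsUnif O π → u ∈ O ∧ u⁻¹ ∈ O := by
  obtain ⟨q, hq, hnd⟩ := Polynomial.exists_eq_pow_rootMultiplicity_mul_and_not_dvd p hp 0
  rw [Polynomial.C_0, sub_zero] at hq hnd
  have hq0 : q.coeff 0 ≠ 0 := fun h => hnd (Polynomial.X_dvd_iff.2 h)
  refine ⟨Polynomial.rootMultiplicity 0 p, Polynomial.aeval π q, ?_, fun O hO => y_unit_poly hU hO q hq0⟩
  conv_lhs => rw [hq]
  rw [map_mul, map_pow, Polynomial.aeval_X]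

/-- Two local rings with the same uniformiser `π` contain the same rational functions of `π`. -/
theorem y_transfer (hU : UnifStmt) {O O' : Subalgebra k (F k)} {π : F k} (hπ : IsUnif O π) (hπ' : IsUnif O' π)
    (p q : Polynomial k) (hq : Polynomial.aeval π q ≠ 0)
    (h : Polynomial.aeval π p / Polynomial.aeval π q ∈ O') : Polynomial.aeval π p / Polynomial.aeval π q ∈ O := by
  by_cases hp : p = 0
  · rw [hp, map_zero, zero_div]
    exact O.zero_mem
  by_cases hpe : Polynomial.aeval π p = 0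
  · rw [hpe, zero_div]
    exact O.zero_mem
  have hq0 : q ≠ 0 := by
    intro h0
    rw [h0, map_zero] at hq
    exact hq rfl
  have hπ0 : π ≠ 0 := by
    intro h
    apply hπ.2.1
    rw [h, inv_zero]
    exact O.zero_mem
  obtain ⟨a, u, hu, huO⟩ := y_pow_unit hU (π := π) p hp
  obtain ⟨b, v, hv, hvO⟩ := y_pow_unit hU (π := π) q hq0
  have hu0 : u ≠ 0 := by
    intro h0
    rw [hu, h0, mul_zero] at hpe
    exact hpe rfl
  have hv0 : v ≠ 0 := by
    intro h0
    rw [hv, h0, mul_zero] at hq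
    exact hq rfl
  have hf : Polynomial.aeval π p / Polynomial.aeval π q = π ^ ((a : ℤ) - b) * (u * v⁻¹) := by
    rw [hu, hv, zpow_sub₀ hπ0, zpow_natCast, zpow_natCast]
    field_simp
  rw [hf] at h ⊢
  have hw : ∀ O : Subalgebra k (F k), IsUnif O π → u * v⁻¹ ∈ O ∧ (u * v⁻¹)⁻¹ ∈ O := by
    intro O hO
    refine ⟨O.mul_mem (huO O hO).1 (hvO O hO).2, ?_⟩
    rw [mul_inv, inv_inv]
    exact O.mul_mem (huO O hO).2 (hvO O hO).1
  have h0 := (hU k O' π hπ').2.2.2 _ _ (mul_ne_zero hu0 (inv_ne_zero hv0)) (hw O' hπ').1 (hw O' hπ').2 h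
  obtain ⟨e, he⟩ := Int.eq_ofNat_of_zero_le h0
  rw [he]
  refine O.mul_mem ?_ (hw O hπ).1
  rw [zpow_natCast]
  exact O.pow_mem hπ.1 e

end unif

/-- The numerator is a polynomial in the coordinate of the pencil `T`. -/
theorem y_poly (hEv : EvStmt) (hCo : CoordStmt) (hLo : LocStmt) (hCu : CurveStmt) (hEx : ExcStmt) (hOr : OrdStmt)
    (hHa : HartAStmt) {k : Type} [Field k] (T : Pt k) {ι : Type} (A : Finset ι) (ℓ : ι → Fin 3 → k)
    (hT : ∀ i ∈ A, ℓ i ⬝ᵥ T.rep = 0) (s : ℕ) (f : F k)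
    (h1 : ∀ O, IsCurve O → ∀ b, UnitForm O b → (∏ i ∈ A, ev (ℓ i) / ev b) ^ s * f ∈ O)
    (h2 : ∀ O, IsExc T O → f ∈ O) (b c d : Fin 3 → k) (hbcd : LinearIndependent k ![b, c, d])
    (hbT : b ⬝ᵥ T.rep ≠ 0) (hcT : c ⬝ᵥ T.rep = 0) (hdT : d ⬝ᵥ T.rep = 0) :
    ∃ p : Polynomial k, (∏ i ∈ A, ev (ℓ i) / ev c) ^ s * f = Polynomial.aeval (ev d / ev c) p := by
  obtain ⟨-, -, hev⟩ := hEv k
  have hb0 : b ≠ 0 := hbcd.ne_zero 0
  have hc0 : c ≠ 0 := hbcd.ne_zero 1
  have heb : ev b ≠ 0 := fun h => hb0 ((hev b).1 h)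
  have hec : ev c ≠ 0 := fun h => hc0 ((hev c).1 h)
  have hcbd : LinearIndependent k ![c, b, d] := by
    have h3 := hbcd.comp ![1, 0, 2] (by decide)
    have h4 : ![b, c, d] ∘ ![1, 0, 2] = ![c, b, d] := by
      funext i
      fin_cases i
      · rfl
      · rfl
      · rfl
    rwa [h4] at h3
  have hbc : LinearIndependent k ![b, c] := by
    have h3 := hbcd.comp (![0, 1] : Fin 2 → Fin 3) (by decide)
    have h4 : ![b, c, d] ∘ (![0, 1] : Fin 2 → Fin 3) = ![b, c] := by
      funext i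
      fin_cases i
      · rfl
      · rfl
    rwa [h4] at h3
  set z : F k := ev c / ev b with hz
  set w : F k := ev d / ev b with hw
  have hz0 : z ≠ 0 := div_ne_zero hec heb
  have hwz : w / z = ev d / ev c := by
    rw [hz, hw]
    field_simp
  have hz1 : 1 / z = ev b / ev c := by
    rw [hz, one_div_div]
  set P : (Fin 3 → k) → F k := fun a => ∏ i ∈ A, ev (ℓ i) / ev a with hP
  have hPbc : P b = P c * z ^ A.card := by
    rw [hP]
    simp only
    rw [← Finset.prod_const, ← Finset.prod_mul_distrib]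
    refine Finset.prod_congr rfl fun i _ => ?_
    rw [hz]
    field_simp
  have hdiv : P b ^ s * f / z ^ (A.card * s) = P c ^ s * f := by
    rw [hPbc, mul_pow, ← pow_mul]
    have := pow_ne_zero (A.card * s) hz0
    field_simp
  obtain ⟨h, hh⟩ := hHa k b c d hbcd (P b ^ s * f) (fun O hO hb => h1 O hO b hb)
  obtain ⟨o1, -⟩ := hOr k z w h (A.card * s) (hCo k b c d hbcd).1
  obtain ⟨-, o3⟩ := hOr k z w h (A.card * s) (hCo k b c d hbcd).1
  -- the exceptional curve
  have low : ∀ m ∈ h.support, A.card * s ≤ m 0 + m 1 := by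
    obtain ⟨⟨O, hO⟩, hE⟩ := hEx k T
    obtain ⟨e1, e2, e3, e4⟩ := hE O hO
    have hl := e4 b c d hbcd hcT hdT
    rw [← hwz] at hl
    have hco := (hCo k b c d hbcd).2
    rw [← hwz] at hco
    rw [← o1 O hco hl, ← hh, hdiv]
    exact O.mul_mem (O.pow_mem (Subalgebra.prod_mem O fun i hi => e2 c (ℓ i) hc0 hcT (hT i hi)) s) (h2 O hO)
  -- the line `b = 0`
  have high : ∀ m ∈ h.support, m 0 + m 1 ≤ A.card * s := by
    have hco := (hCo k c b d hcbd).1
    rw [← hwz, ← hz1] at hco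
    obtain ⟨⟨O, hO⟩, hl⟩ := hLo k (1 / z) (w / z) hco (MvPolynomial.X 0) MvPolynomial.X_prime.irreducible
    obtain ⟨l1, l2, l3⟩ := hl O hO
    have hcm : cm (1 / z) (w / z) (MvPolynomial.X 0) = 1 / z := by simp [cm]
    have hcu : IsCurve O := by
      refine ⟨c, b, d, MvPolynomial.X 0, hcbd, ?_⟩
      rw [← hwz, ← hz1]
      exact hO
    have hcf : UnitForm O c := by
      rcases (hCu k O hcu).2.2.1 b hb0 with h8 | h8
      · exfalso
        apply l3.2.1
        rw [hcm, one_div, inv_inv]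
        exact h8.2 c
      · exact (h8 c hbc).1
    rw [← o3 O hco hO, ← hh, hdiv]
    exact h1 O hcu c hcf
  refine ⟨∑ m ∈ h.support, Polynomial.monomial (m 1) (h.coeff m), ?_⟩
  rw [← hdiv, hh, div_eq_iff (pow_ne_zero _ hz0), ← hwz]
  change cm z w h = _
  conv_lhs => rw [h.as_sum]
  rw [map_sum, map_sum, Finset.sum_mul]
  refine Finset.sum_congr rfl fun m hm => ?_
  have hm2 : m 0 + m 1 = A.card * s := le_antisymm (high m hm) (low m hm)
  rw [Polynomial.aeval_monomial, ← hm2]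
  unfold cm
  rw [MvPolynomial.aeval_monomial, Finsupp.prod_fintype _ _ (by intro i; rw [pow_zero]), Fin.prod_univ_two]
  simp only [Matrix.cons_val_zero, Matrix.cons_val_one]
  have e1 : (w / z) ^ m 1 * z ^ m 1 = w ^ m 1 := by rw [← mul_pow, div_mul_cancel₀ _ hz0]
  rw [pow_add]
  linear_combination (-(algebraMap k (F k) (h.coeff m) * z ^ m 0)) * e1

/-- A rational function with poles of order at most `s` along lines through `T`, regular at `E_T` and at one other exceptional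
curve over each of these lines, is constant. -/
theorem y_constF (hEv : EvStmt) (hCo : CoordStmt) (hLo : LocStmt) (hU : UnifStmt) (hCu : CurveStmt) (hEx : ExcStmt)
    (hOr : OrdStmt) (hHa : HartAStmt) (hPnt : PntStmt) (hConst : ConstStmt) {k : Type} [Field k] (T : Pt k) {ι : Type}
    (A : Finset ι) (ℓ : ι → Fin 3 → k) (hℓ : ∀ i ∈ A, ℓ i ≠ 0) (hT : ∀ i ∈ A, ℓ i ⬝ᵥ T.rep = 0) (s : ℕ) (f : F k)
    (h1 : ∀ O, IsCurve O → ∀ b, UnitForm O b → (∏ i ∈ A, ev (ℓ i) / ev b) ^ s * f ∈ O)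
    (h2 : ∀ O, IsExc T O → f ∈ O)
    (h3 : ∀ i ∈ A, ∃ P : Pt k, P ≠ T ∧ ℓ i ⬝ᵥ P.rep = 0 ∧ ∀ O, IsExc P O → f ∈ O) :
    ∃ t : k, f = algebraMap k (F k) t := by
  apply hConst
  intro O hO
  obtain ⟨-, -, hev⟩ := hEv k
  have hevℓ : ∀ i ∈ A, ev (ℓ i) ≠ 0 := fun i hi h => hℓ i hi ((hev _).1 h)
  by_cases hall : ∀ i ∈ A, UnitForm O (ℓ i)
  · obtain ⟨b, hb⟩ := (hCu k O hO).2.1
    have heb : ev b ≠ 0 := fun h => hb.1 ((hev b).1 h)
    have h4 : f = (∏ i ∈ A, ev b / ev (ℓ i)) ^ s * ((∏ i ∈ A, ev (ℓ i) / ev b) ^ s * f) := by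
      rw [← mul_assoc, ← mul_pow, ← Finset.prod_mul_distrib]
      rw [Finset.prod_congr rfl (g := fun _ => (1 : F k)) (fun i hi => by
        have := hevℓ i hi
        field_simp), Finset.prod_const_one, one_pow, one_mul]
    rw [h4]
    exact O.mul_mem (O.pow_mem (Subalgebra.prod_mem O fun i hi => (hall i hi).2 b) s) (h1 O hO b hb)
  · push Not at hall
    obtain ⟨i, hi, hiU⟩ := hall
    rcases (hCu k O hO).2.2.1 (ℓ i) (hℓ i hi) with h4 | h4
    · exact absurd h4 hiU
    obtain ⟨P, hPT, hPi, hPf⟩ := h3 i hi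
    -- a form `c` through `T`, not through `P`
    obtain ⟨c, hcT, hcP⟩ := (hPnt k).2.2.2.1 T P hPT.symm
    -- a form `b` with `b(T) ≠ 0`
    obtain ⟨b, hbT⟩ : ∃ b : Fin 3 → k, b ⬝ᵥ T.rep ≠ 0 := by
      by_contra hno
      push Not at hno
      apply T.rep_nonzero
      ext a
      have := hno (Pi.single a 1)
      rwa [single_dotProduct, one_mul] at this
    have hci : LinearIndependent k ![c, ℓ i] := by
      rw [LinearIndependent.pair_iff]
      intro x y hxy
      have h5 := congrArg (fun v => v ⬝ᵥ P.rep) hxy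
      simp only [add_dotProduct, smul_dotProduct, smul_eq_mul, zero_dotProduct, hPi, mul_zero, add_zero] at h5
      have hx : x = 0 := (mul_eq_zero.1 h5).resolve_right hcP
      rw [hx, zero_smul, zero_add] at hxy
      exact ⟨hx, (smul_eq_zero.1 hxy).resolve_right (hℓ i hi)⟩
    have hic : LinearIndependent k ![ℓ i, c] := LinearIndependent.pair_symm_iff.1 hci
    have hbci : LinearIndependent k ![b, c, ℓ i] := by
      rw [Fintype.linearIndependent_iff]
      intro g hg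
      rw [Fin.sum_univ_three] at hg
      simp only [Matrix.cons_val_zero, Matrix.cons_val_one, Matrix.cons_val] at hg
      have h5 := congrArg (fun v => v ⬝ᵥ T.rep) hg
      simp only [add_dotProduct, smul_dotProduct, smul_eq_mul, zero_dotProduct, hcT, hT i hi, mul_zero, add_zero] at h5
      have h6 : g 0 = 0 := (mul_eq_zero.1 h5).resolve_right hbT
      rw [h6, zero_smul, zero_add] at hg
      have h7 := LinearIndependent.pair_iff.1 hci (g 1) (g 2) hg
      intro j
      fin_cases j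
      · exact h6
      · exact h7.1
      · exact h7.2
    obtain ⟨p, hp⟩ := y_poly hEv hCo hLo hCu hEx hOr hHa T A ℓ hT s f h1 h2 b c (ℓ i) hbci hbT hcT (hT i hi)
    have hc0 : c ≠ 0 := hci.ne_zero 0
    have hec : ev c ≠ 0 := fun h => hc0 ((hev c).1 h)
    -- the lines of `A` are linear polynomials in `π`
    have hlin : ∀ j ∈ A, ∃ q : Polynomial k, ev (ℓ j) / ev c = Polynomial.aeval (ev (ℓ i) / ev c) q := by
      intro j hj
      obtain ⟨x, y, hxy⟩ := (hPnt k).2.1 T c (ℓ i) (ℓ j) hci hcT (hT i hi) (hT j hj)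
      refine ⟨Polynomial.C x + Polynomial.C y * Polynomial.X, ?_⟩
      rw [map_add, map_mul, Polynomial.aeval_C, Polynomial.aeval_C, Polynomial.aeval_X, hxy, (hEv k).1, (hEv k).2.1,
        (hEv k).2.1]
      field_simp
    choose! q hq using hlin
    have hden : Polynomial.aeval (ev (ℓ i) / ev c) ((∏ j ∈ A, q j) ^ s) = (∏ j ∈ A, ev (ℓ j) / ev c) ^ s := by
      rw [map_pow, map_prod]
      congr 1
      exact Finset.prod_congr rfl fun j hj => (hq j hj).symm
    have hden0 : (∏ j ∈ A, ev (ℓ j) / ev c) ^ s ≠ 0 :=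
      pow_ne_zero _ (Finset.prod_ne_zero_iff.2 fun j hj => div_ne_zero (hevℓ j hj) hec)
    have hf : f = Polynomial.aeval (ev (ℓ i) / ev c) p / Polynomial.aeval (ev (ℓ i) / ev c) ((∏ j ∈ A, q j) ^ s) := by
      rw [hden, ← hp]
      field_simp
    obtain ⟨⟨O', hO'⟩, hE⟩ := hEx k P
    have hπ' : IsUnif O' (ev (ℓ i) / ev c) := (hE O' hO').2.2.1 c (ℓ i) hcP (hℓ i hi) hPi
    rw [hf]
    apply y_transfer hU (h4 c hic).2 hπ'
    · rw [hden]
      exact hden0
    · rw [← hf]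
      exact hPf O' hO'

/-- The same for elements of a finite extension. -/
theorem y_constK (hEv : EvStmt) (hCo : CoordStmt) (hLo : LocStmt) (hU : UnifStmt) (hCu : CurveStmt) (hEx : ExcStmt)
    (hOr : OrdStmt) (hHa : HartAStmt) (hPnt : PntStmt) (hConst : ConstStmt) {k : Type} [Field k] [IsAlgClosed k]
    (K : Type) [Field K] [Algebra (F k) K] [Algebra k K] [IsScalarTower k (F k) K] [FiniteDimensional (F k) K]
    (T : Pt k) {ι : Type}
    (A : Finset ι) (ℓ : ι → Fin 3 → k) (hℓ : ∀ i ∈ A, ℓ i ≠ 0) (hT : ∀ i ∈ A, ℓ i ⬝ᵥ T.rep = 0) (G : K)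
    (h1 : ∀ O, IsCurve O → ∀ b, UnitForm O b → algebraMap (F k) K (∏ i ∈ A, ev (ℓ i) / ev b) * G ∈ ic K O)
    (h2 : ∀ O, IsExc T O → G ∈ ic K O)
    (h3 : ∀ i ∈ A, ∃ P : Pt k, P ≠ T ∧ ℓ i ⬝ᵥ P.rep = 0 ∧ ∀ O, IsExc P O → G ∈ ic K O) :
    ∃ t : k, G = algebraMap k K t := by
  have hGF : IsIntegral (F k) G := Algebra.IsIntegral.isIntegral G
  obtain ⟨-, -, hev⟩ := hEv k
  have hcl : ∀ O, IsCurve O → ∀ f : F k, IsIntegral O f → f ∈ O := by
    intro O hO f hf
    obtain ⟨π, hπ⟩ := (hCu k O hO).1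
    exact (hU k O π hπ).2.1 f hf
  have hcl' : ∀ (P : Pt k) (O : Subalgebra k (F k)), IsExc P O → ∀ f : F k, IsIntegral O f → f ∈ O := by
    intro P O hO f hf
    obtain ⟨b, hb⟩ : ∃ b : Fin 3 → k, b ⬝ᵥ P.rep ≠ 0 := by
      by_contra hno
      push Not at hno
      apply P.rep_nonzero
      ext a
      have := hno (Pi.single a 1)
      rwa [single_dotProduct, one_mul] at this
    obtain ⟨c, d, hcd, hc, hd⟩ := (hPnt k).2.2.2.2 P
    have hπ := ((hEx k P).2 O hO).2.2.1 b c hb (hcd.ne_zero 0) hc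
    exact (hU k O _ hπ).2.1 f hf
  have hcoef : ∀ m, ∃ t : k, (minpoly (F k) G).coeff m = algebraMap k (F k) t := by
    intro m
    refine y_constF hEv hCo hLo hU hCu hEx hOr hHa hPnt hConst T A ℓ hℓ hT ((minpoly (F k) G).natDegree - m) _ ?_ ?_ ?_
    · intro O hO b hb
      have heb : ev b ≠ 0 := fun h => hb.1 ((hev b).1 h)
      have hD : (∏ i ∈ A, ev (ℓ i) / ev b) ≠ 0 :=
        Finset.prod_ne_zero_iff.2 fun i hi => div_ne_zero (fun h => hℓ i hi ((hev _).1 h)) heb
      have h := y_coeff_scale O (hcl O hO) hGF hD (h1 O hO b hb) m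
      rwa [mul_comm] at h
    · intro O hO
      exact coeff_minpoly_mem O (hcl' T O hO) (h2 O hO) m
    · intro i hi
      obtain ⟨P, hPT, hPi, hP⟩ := h3 i hi
      exact ⟨P, hPT, hPi, fun O hO => coeff_minpoly_mem O (hcl' P O hO) (hP O hO) m⟩
  have h4 : IsIntegral (⊥ : Subalgebra k (F k)) G :=
    isIntegral_of_coeff_minpoly_mem ⊥ hGF fun m => by
      obtain ⟨t, ht⟩ := hcoef m
      rw [ht]
      exact (⊥ : Subalgebra k (F k)).algebraMap_mem t
  have h5 : IsIntegral k G := by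
    have : Algebra.IsIntegral k (⊥ : Subalgebra k (F k)) := by
      constructor
      rintro ⟨x, hx⟩
      obtain ⟨c, rfl⟩ := Algebra.mem_bot.1 hx
      exact isIntegral_algebraMap (R := k) (A := (⊥ : Subalgebra k (F k))) (x := c)
    have : IsScalarTower k (⊥ : Subalgebra k (F k)) K := IsScalarTower.of_algebraMap_eq (fun c => by
      rw [IsScalarTower.algebraMap_apply k (F k) K]; rfl)
    exact isIntegral_trans G h4
  obtain ⟨c, hc⟩ := minpoly.mem_range_of_degree_eq_one k G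
    (IsAlgClosed.degree_eq_one_of_irreducible k (minpoly.irreducible h5))
  exact ⟨c, hc.symm⟩

end Pool.Agent.Lib.MP_4318ff_ag
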