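import Pool.Agent.Lib.MP_4318ff_ag.Y.Sol

/-!
# MP_4318ff_ag, module Y/CorN: the core theorem for linearly rigid configurations, with `SolFor`
-/

set_option autoImplicit false

namespace Pool.Agent.Lib.MP_4318ff_ag

open scoped LinearAlgebra.Projectivization

/-- The global functions `g_q` are regular at the curves (`GregStmt` with `SolFor`). -/
theorem yM_greg {k : Type} [Field k] [CharZero k] [IsAlgClosed k] {r n : ℕ} (C : Config k r) (hSol : SolFor C n)
    (K : Type) [Field K] [Algebra (F k) K] [Algebra k K] [IsScalarTower k (F k) K] [FiniteDimensional (F k) K]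
    [IsGalois (F k) K] (hR : C.LinRigid) (hr : 6 ≤ r) (hn : 4 ≤ n) (hroots : Roots K C n)
    (P₀ : Pt k) (S : Finset (Pt k)) (hS1 : ∀ P ∈ S, P ∈ C.M) (hS2 : ∀ P ∈ C.M, P ≠ P₀ → P ∈ S)
    (D : Chart C → Chart C → Derivation k K K) (Δ : Pt k → Chart C → Derivation k K K)
    (hreg : ∀ P ∈ S, ∀ u O, IsDiv C O → u.R ≤ O → RegAt C n P O (Δ P u))
    (heq : ∀ P ∈ S, ∀ u v, EqOn P (D u v) (Δ P v - Δ P u))
    (hcase : (∀ P ∈ C.M, P ∈ S) ∨ ∀ P ∈ S, ∀ u, ∀ g ∈ NP K P₀, conjD g (Δ P u) = Δ P u)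
    (q : Pt k → Fin r → k) (hq1 : ∀ P ∈ S, ∀ i, i ∉ C.through P → q P i = 0) (hq2 : ∀ P ∈ S, ∑ i, q P i = 0)
    (hq3 : ∀ i, ∑ P ∈ S, q P i = 0) (u : Chart C) (O : Subalgebra k (F k)) (hO : IsCurve O) :
    ∑ P ∈ S, ∑ i, algebraMap k K (q P i) *
      (Δ P u (algebraMap (F k) K (ev (C.ℓ i))) / algebraMap (F k) K (ev (C.ℓ i))) ∈ ic K O := by
  classical
  have : Infinite k := IsAlgClosed.instInfinite
  obtain ⟨v, hv⟩ := all_chartEx k r C O (Or.inl hO)
  rw [tGlob k r C K S (D u v) (fun P => Δ P u) (fun P => Δ P v) q (fun P hP => heq P hP u v) hq1 hq2 hq3]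
  have h := gr_curve C all_curve tTau all_resE la_bas hR hr (by omega) hroots P₀ S hS1 hS2 O hO (fun P => Δ P v)
    (fun P hP => hreg P hP v O (Or.inl hO) hv) (fun T hT ρ hρS hrel hsum =>
      hSol K hroots P₀ S hS1 hS2 D Δ hreg heq hcase T hT ρ hρS hrel hsum v) q hq1 hq2 hq3
  simp only [Algebra.smul_def] at h
  exact h

private theorem yM_fix {k : Type} [Field k] {K : Type} [Field K] [Algebra (F k) K] [Algebra k K]
    [IsScalarTower k (F k) K] (g : K ≃ₐ[F k] K) (c : k) : g (algebraMap k K c) = algebraMap k K c := by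
  rw [IsScalarTower.algebraMap_apply k (F k) K, g.commutes]

private theorem yM_eval {k : Type} [Field k] [CharZero k] {K : Type} [Field K] [Algebra (F k) K] [Algebra k K]
    [IsScalarTower k (F k) K] [FiniteDimensional (F k) K] (N : Subgroup (K ≃ₐ[F k] K)) :
    ∃ (s : Finset (K ≃ₐ[F k] K)) (c : k), c * (s.card : k) = 1 ∧
      ∀ (D : Derivation k K K) (f : F k), avgD N D (algebraMap (F k) K f) =
        algebraMap k K c * ∑ g ∈ s, g (D (algebraMap (F k) K f)) := by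
  classical
  refine ⟨Finset.univ.filter (fun g : K ≃ₐ[F k] K => g ∈ N),
    ((Finset.univ.filter (fun g : K ≃ₐ[F k] K => g ∈ N)).card : k)⁻¹, ?_, ?_⟩
  · apply inv_mul_cancel₀
    have : (Finset.univ.filter (fun g : K ≃ₐ[F k] K => g ∈ N)).card ≠ 0 := by
      apply Finset.card_ne_zero_of_mem (a := 1)
      rw [Finset.mem_filter]
      exact ⟨Finset.mem_univ _, N.one_mem⟩
    exact_mod_cast this
  · intro D f
    have h1 : avgD N D = ((Finset.univ.filter (fun g : K ≃ₐ[F k] K => g ∈ N)).card : k)⁻¹ •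
        ∑ g ∈ Finset.univ.filter (fun g : K ≃ₐ[F k] K => g ∈ N), conjD g D := by
      unfold avgD
      rfl
    rw [h1, Derivation.smul_apply, Algebra.smul_def]
    congr 1
    have h2 : (∑ g ∈ Finset.univ.filter (fun g : K ≃ₐ[F k] K => g ∈ N), conjD g D) (algebraMap (F k) K f) =
        ∑ g ∈ Finset.univ.filter (fun g : K ≃ₐ[F k] K => g ∈ N), conjD g D (algebraMap (F k) K f) := by
      change Derivation.coeFnAddMonoidHom _ _ = _
      rw [map_sum, Finset.sum_apply]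
      rfl
    rw [h2]
    apply Finset.sum_congr rfl
    intro g _
    change g (D (g.symm (algebraMap (F k) K f))) = _
    rw [g.symm.commutes]

/-- The global functions vanish (`GzeroStmt` with `SolFor`). -/
theorem yM_gzero {k : Type} [Field k] [CharZero k] [IsAlgClosed k] {r n : ℕ} (C : Config k r) (hSol : SolFor C n)
    (K : Type) [Field K] [Algebra (F k) K] [Algebra k K] [IsScalarTower k (F k) K] [FiniteDimensional (F k) K]
    [IsGalois (F k) K] (hR : C.LinRigid) (hr : 6 ≤ r) (hn : 4 ≤ n) (hroots : Roots K C n)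
    (P₀ : Pt k) (S : Finset (Pt k)) (hS1 : ∀ P ∈ S, P ∈ C.M) (hS2 : ∀ P ∈ C.M, P ≠ P₀ → P ∈ S)
    (D : Chart C → Chart C → Derivation k K K) (Δ : Pt k → Chart C → Derivation k K K)
    (hreg : ∀ P ∈ S, ∀ u O, IsDiv C O → u.R ≤ O → RegAt C n P O (Δ P u))
    (heq : ∀ P ∈ S, ∀ u v, EqOn P (D u v) (Δ P v - Δ P u))
    (hcase : (∀ P ∈ C.M, P ∈ S) ∨ ∀ P ∈ S, ∀ u, ∀ g ∈ NP K P₀, conjD g (Δ P u) = Δ P u)
    (hD : ∀ u v, avgD ⊤ (D u v) = 0)
    (q : Pt k → Fin r → k) (hq1 : ∀ P ∈ S, ∀ i, i ∉ C.through P → q P i = 0) (hq2 : ∀ P ∈ S, ∑ i, q P i = 0)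
    (hq3 : ∀ i, ∑ P ∈ S, q P i = 0) (u : Chart C) :
    ∑ P ∈ S, ∑ i, algebraMap k K (q P i) *
      (Δ P u (algebraMap (F k) K (ev (C.ℓ i))) / algebraMap (F k) K (ev (C.ℓ i))) = 0 := by
  obtain ⟨s, c, hc, hev⟩ := yM_eval (k := k) (K := K) ⊤
  obtain ⟨-, -, -, -, -, a6, -, a8, -, -⟩ := tAvg k K
  obtain ⟨c0, hc0⟩ := all_constK k K _ (fun O hO => yM_greg C hSol K hR hr hn hroots P₀ S hS1 hS2 D Δ hreg heq hcase q hq1 hq2 hq3 u O hO)
  -- the averages of the fields
  have hinv : ∀ P ∈ S, ∀ i ∈ C.through P, ∀ j ∈ C.through P,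
      avgD ⊤ (Δ P u) (algebraMap (F k) K (ev (C.ℓ i))) / algebraMap (F k) K (ev (C.ℓ i)) =
      avgD ⊤ (Δ P u) (algebraMap (F k) K (ev (C.ℓ j))) / algebraMap (F k) K (ev (C.ℓ j)) := by
    intro P hP
    refine all_invZ k r n C K (by omega) hroots P (hS1 P hP) (fun v => avgD ⊤ (Δ P v)) ?_ ?_ ?_ u
    · intro v O hO hvO
      obtain ⟨-, h2, -⟩ := tRegMod k r n C K
      obtain ⟨W, hW1, hW2⟩ := h2 P O
      rw [← hW1]
      exact a8 ⊤ W (fun g _ D hD => hW2 g D hD) _ ((hW1 _).2 (hreg P hP v O hO hvO))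
    · intro v w e e' he he'
      have h1 := heq P hP v w e e' he he'
      have h2 : avgD ⊤ (D v w) (algebraMap (F k) K (ev e / ev e')) = 0 := by
        rw [hD v w]
        rfl
      rw [hev] at h2
      rw [hev, hev, ← sub_eq_zero, ← mul_sub, ← Finset.sum_sub_distrib]
      rw [← h2]
      congr 1
      apply Finset.sum_congr rfl
      intro g _
      have h3 : D v w (algebraMap (F k) K (ev e / ev e')) =
          Δ P w (algebraMap (F k) K (ev e / ev e')) - Δ P v (algebraMap (F k) K (ev e / ev e')) := h1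
      rw [h3, map_sub]
    · intro g v
      exact a6 ⊤ _ g (Subgroup.mem_top g)
  have key : ∑ P ∈ S, ∑ i, algebraMap k K (q P i) *
      (Δ P u (algebraMap (F k) K (ev (C.ℓ i))) / algebraMap (F k) K (ev (C.ℓ i))) =
      ∑ P ∈ S, ∑ i, algebraMap k K (q P i) *
      (avgD ⊤ (Δ P u) (algebraMap (F k) K (ev (C.ℓ i))) / algebraMap (F k) K (ev (C.ℓ i))) := by
    have h1 : ∑ g ∈ s, g (∑ P ∈ S, ∑ i, algebraMap k K (q P i) *
        (Δ P u (algebraMap (F k) K (ev (C.ℓ i))) / algebraMap (F k) K (ev (C.ℓ i)))) =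
        (s.card : K) * (∑ P ∈ S, ∑ i, algebraMap k K (q P i) *
        (Δ P u (algebraMap (F k) K (ev (C.ℓ i))) / algebraMap (F k) K (ev (C.ℓ i)))) := by
      rw [hc0, ← nsmul_eq_mul, ← Finset.sum_const]
      exact Finset.sum_congr rfl (fun g _ => yM_fix g c0)
    have h2 : (algebraMap k K c) * (s.card : K) = 1 := by
      have : algebraMap k K (c * (s.card : k)) = 1 := by rw [hc, map_one]
      rwa [map_mul, map_natCast] at this
    have h3 : ∑ P ∈ S, ∑ i, algebraMap k K (q P i) *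
        (Δ P u (algebraMap (F k) K (ev (C.ℓ i))) / algebraMap (F k) K (ev (C.ℓ i))) =
        algebraMap k K c * ∑ g ∈ s, g (∑ P ∈ S, ∑ i, algebraMap k K (q P i) *
        (Δ P u (algebraMap (F k) K (ev (C.ℓ i))) / algebraMap (F k) K (ev (C.ℓ i)))) := by
      rw [h1, ← mul_assoc, h2, one_mul]
    rw [h3]
    have h4 : ∀ g ∈ s, g (∑ P ∈ S, ∑ i, algebraMap k K (q P i) *
        (Δ P u (algebraMap (F k) K (ev (C.ℓ i))) / algebraMap (F k) K (ev (C.ℓ i)))) =
        ∑ P ∈ S, ∑ i, algebraMap k K (q P i) *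
        (g (Δ P u (algebraMap (F k) K (ev (C.ℓ i)))) / algebraMap (F k) K (ev (C.ℓ i))) := by
      intro g _
      rw [map_sum]
      apply Finset.sum_congr rfl
      intro P _
      rw [map_sum]
      apply Finset.sum_congr rfl
      intro i _
      rw [map_mul, map_div₀, yM_fix, g.commutes]
    rw [Finset.sum_congr rfl h4, Finset.sum_comm, Finset.mul_sum]
    apply Finset.sum_congr rfl
    intro P _
    rw [Finset.sum_comm, Finset.mul_sum]
    apply Finset.sum_congr rfl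
    intro i _
    rw [hev, ← Finset.mul_sum, ← Finset.sum_div]
    ring
  rw [key]
  apply Finset.sum_eq_zero
  intro P hP
  by_cases hex : ∃ i, i ∈ C.through P
  · obtain ⟨i0, hi0⟩ := hex
    have h1 : ∀ i, algebraMap k K (q P i) *
        (avgD ⊤ (Δ P u) (algebraMap (F k) K (ev (C.ℓ i))) / algebraMap (F k) K (ev (C.ℓ i))) =
        algebraMap k K (q P i) *
        (avgD ⊤ (Δ P u) (algebraMap (F k) K (ev (C.ℓ i0))) / algebraMap (F k) K (ev (C.ℓ i0))) := by
      intro i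
      by_cases hi : i ∈ C.through P
      · rw [hinv P hP i hi i0 hi0]
      · rw [hq1 P hP i hi, map_zero, zero_mul, zero_mul]
    rw [Finset.sum_congr rfl (fun i _ => h1 i), ← Finset.sum_mul, ← map_sum, hq2 P hP, map_zero, zero_mul]
  · push Not at hex
    apply Finset.sum_eq_zero
    intro i _
    rw [hq1 P hP i (hex i), map_zero, zero_mul]

private lemma yM_dotE {k : Type} [Field k] {K : Type} [Field K] [Algebra (F k) K] [Algebra k K]
    [IsScalarTower k (F k) K] (Δ : Derivation k K K) (c : Fin 3 → k) :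
    dotE c (fun j => Δ (algebraMap (F k) K (gen k j))) = Δ (algebraMap (F k) K (ev c)) := by
  unfold dotE ev
  rw [map_sum, map_sum]
  refine Finset.sum_congr rfl fun i _ => ?_
  rw [map_mul, ← IsScalarTower.algebraMap_apply, ← Algebra.smul_def, Derivation.map_smul]

private lemma yM_ne {k : Type} [Field k] {r : ℕ} (C : Config k r) (hr : 6 ≤ r) (i : Fin r) :
    C.ℓ i ≠ 0 := by
  obtain ⟨j, hj⟩ : ∃ j : Fin r, i ≠ j := by
    by_cases h : i = ⟨0, by omega⟩
    · exact ⟨⟨1, by omega⟩, by rw [h]; simp⟩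
    · exact ⟨⟨0, by omega⟩, h⟩
  exact (C.indep i j hj).ne_zero 0

/-- One vector field for all pencils (`VecLStmt` with `SolFor`). -/
theorem yM_vec {k : Type} [Field k] [CharZero k] [IsAlgClosed k] {r n : ℕ} (C : Config k r) (hSol : SolFor C n)
    (K : Type) [Field K] [Algebra (F k) K] [Algebra k K] [IsScalarTower k (F k) K] [FiniteDimensional (F k) K]
    [IsGalois (F k) K] (hR : C.LinRigid) (hr : 6 ≤ r) (hn : 4 ≤ n) (hroots : Roots K C n)
    (P₀ : Pt k) (S : Finset (Pt k)) (hS1 : ∀ P ∈ S, P ∈ C.M) (hS2 : ∀ P ∈ C.M, P ≠ P₀ → P ∈ S)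
    (D : Chart C → Chart C → Derivation k K K) (Δ : Pt k → Chart C → Derivation k K K)
    (hreg : ∀ P ∈ S, ∀ u O, IsDiv C O → u.R ≤ O → RegAt C n P O (Δ P u))
    (heq : ∀ P ∈ S, ∀ u v, EqOn P (D u v) (Δ P v - Δ P u))
    (hcase : (∀ P ∈ C.M, P ∈ S) ∨ ∀ P ∈ S, ∀ u, ∀ g ∈ NP K P₀, conjD g (Δ P u) = Δ P u)
    (havg : ∀ u v, avgD ⊤ (D u v) = 0) :
    ∃ E : Chart C → Derivation k K K, ∀ u, ∀ P ∈ S, EqOn P (E u) (Δ P u) := by
  classical
  have hEv := tEv
  have hInc := all_inc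
  have hLA3 := all_la3L
  have hDerV := tDerV
  have hPen := all_pen
  have hne : ∀ i, algebraMap (F k) K (ev (C.ℓ i)) ≠ 0 := by
    intro i h
    have h1 : ev (C.ℓ i) = 0 := (map_eq_zero (algebraMap (F k) K)).1 h
    exact yM_ne C hr i (((hEv k).2.2 (C.ℓ i)).1 h1)
  have key : ∀ u : Chart C, ∃ E : Derivation k K K, ∀ P ∈ S, EqOn P E (Δ P u) := by
    intro u
    obtain ⟨s, a, hsa⟩ := hInc k r C S K
      (fun P i => Δ P u (algebraMap (F k) K (ev (C.ℓ i))) / algebraMap (F k) K (ev (C.ℓ i)))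
      (by
        intro q _ hq1 hq2 hq3
        have h1 := yM_gzero C hSol K hR hr hn hroots P₀ S hS1 hS2 D Δ hreg heq hcase havg q hq1 hq2 hq3 u
        rw [← h1]
        refine Finset.sum_congr rfl fun P _ => Finset.sum_congr rfl fun i _ => ?_
        rw [Algebra.smul_def])
    obtain ⟨v, hv⟩ := hLA3 k r C hR hr P₀ K (fun i => s i * algebraMap (F k) K (ev (C.ℓ i)))
      (by
        intro P hP hne0
        refine ⟨fun j => Δ P u (algebraMap (F k) K (gen k j)) - a P * algebraMap (F k) K (gen k j), ?_⟩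
        intro i hi
        have h2 := hsa P (hS2 P hP hne0) i hi
        have h3 : dotE (C.ℓ i) (fun j => Δ P u (algebraMap (F k) K (gen k j)) -
            a P * algebraMap (F k) K (gen k j)) =
            dotE (C.ℓ i) (fun j => Δ P u (algebraMap (F k) K (gen k j))) -
            a P * algebraMap (F k) K (ev (C.ℓ i)) := by
          unfold dotE ev
          rw [map_sum, Finset.mul_sum, ← Finset.sum_sub_distrib]
          refine Finset.sum_congr rfl fun b _ => ?_
          rw [smul_sub, map_mul, ← IsScalarTower.algebraMap_apply, Algebra.smul_def, Algebra.smul_def]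
          ring
        rw [h3, yM_dotE]
        have h4 : s i = Δ P u (algebraMap (F k) K (ev (C.ℓ i))) / algebraMap (F k) K (ev (C.ℓ i)) - a P := by
          rw [h2]; ring
        rw [h4, sub_mul, div_mul_cancel₀ _ (hne i)])
    obtain ⟨E, hE⟩ := hDerV k K v
    refine ⟨E, fun P hP => ?_⟩
    have hE2 : ∀ i, E (algebraMap (F k) K (ev (C.ℓ i))) / algebraMap (F k) K (ev (C.ℓ i)) =
        s i - v 0 := by
      intro i
      rw [div_eq_iff (hne i), hE, sub_mul]
      congr 1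
      have h5 : s i * algebraMap (F k) K (ev (C.ℓ i)) = dotE (C.ℓ i) v := hv i
      rw [h5]
      unfold dotE
      refine Finset.sum_congr rfl fun j _ => ?_
      rw [Algebra.smul_def]
    refine hPen k r C K P E (Δ P u) (hS1 P hP) ?_
    intro i hi j hj
    have h2 := hsa P hP i hi
    have h3 := hsa P hP j hj
    simp only at h2 h3 ⊢
    rw [hE2 i, hE2 j, h2, h3]
    ring
  choose E hE using key
  exact ⟨E, hE⟩

private lemma yM_ic_mono {k : Type} [Field k] (K : Type) [Field K] [Algebra (F k) K]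
    {S T : Subalgebra k (F k)} (h : S ≤ T) {y : K} (hy : y ∈ ic K S) : y ∈ ic K T := by
  obtain ⟨f, hf, hfy⟩ := (show IsIntegral S y from hy)
  refine (show IsIntegral T y from ⟨f.map (Subalgebra.inclusion h).toRingHom, hf.map _, ?_⟩)
  rw [Polynomial.eval₂_map]
  exact hfy

/-- a second point of `M` on a line -/
private lemma yM_other (hTwo : TwoLStmt) {k : Type} [Field k] {r : ℕ} (C : Config k r)
    (hrig : C.LinRigid) (hr : 6 ≤ r) (i : Fin r) (T : Pt k) :
    ∃ Q ∈ C.M, T ≠ Q ∧ i ∈ C.through Q := by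
  obtain ⟨P, hP, Q, hQ, hPQ, hiP, hiQ⟩ := hTwo k r C hrig hr i
  by_cases h : T = P
  · exact ⟨Q, hQ, by rw [h]; exact hPQ, hiQ⟩
  · exact ⟨P, hP, h, hiP⟩

/-- regularity of the cochain -/
private lemma yM_reg (hHartK : HartKStmt) (hRegCurve : RegCurveStmt) (hRegExc : RegExcStmt)
    (hInv : InvStmt) (hTwo : TwoLStmt) (hSpn : SpnLStmt) (hBas : BasStmt) (hExc : ExcStmt)
    {k : Type} [Field k] [CharZero k] [IsAlgClosed k] {r n : ℕ} (C : Config k r) (K : Type)
    [Field K] [Algebra (F k) K] [Algebra k K] [IsScalarTower k (F k) K] [FiniteDimensional (F k) K]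
    [IsGalois (F k) K] (hrig : C.LinRigid) (hr : 6 ≤ r) (hn : 4 ≤ n) (hroots : Roots K C n)
    (P₀ : Pt k) (S : Set (Pt k)) (hS : ∀ P ∈ C.M, P ≠ P₀ → P ∈ S)
    (u : Chart C) (E : Derivation k K K)
    (hreg : ∀ P ∈ S, ∀ O, IsDiv C O → u.R ≤ O → RegAt C n P O E)
    (hcase : ∀ T ∈ C.M, T ∈ S ∨ (T = P₀ ∧ ∀ g ∈ NP K T, conjD g E = E))
    (y : K) (hy : y ∈ ic K u.R) (hyK : y ∈ Kummer K C n) : E y ∈ ic K u.R := by
  have hn0 : 0 < n := by omega
  have hn2 : 2 ≤ n := by omega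
  refine hHartK k r C K u (E y) fun O hO huO => ?_
  have hyO : y ∈ ic K O := yM_ic_mono K huO hy
  rcases hO with hcur | ⟨T, hT, hexc⟩
  · refine hRegCurve k r n C K O E P₀ hn0 hroots hcur ?_ ?_ ?_ y hyO hyK
    · intro i
      obtain ⟨P, hP, hne, hiP⟩ := yM_other hTwo C hrig hr i P₀
      exact ⟨P, hP, fun h => hne h.symm, hiP⟩
    · exact (hSpn k r C hrig hr).1 P₀
    · intro P hP hne
      exact hreg P (hS P hP hne) O (Or.inl hcur) huO
  · have hdiv : IsDiv C O := Or.inr ⟨T, hT, hexc⟩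
    obtain ⟨hB1, -, hB3, -, -, -⟩ := hBas k r C
    obtain ⟨i, hi, j, hj, m, hm, hij, him, hjm⟩ := hB3 T hT
    rcases hcase T hT with hTS | ⟨hTP, hinv⟩
    · -- a line through T and a point of S on it
      have hex : ∃ i' ∈ C.through T, ∃ Q ∈ C.M, T ≠ Q ∧ i' ∈ C.through Q ∧ Q ∈ S := by
        by_cases hT0 : T = P₀
        · obtain ⟨Q, hQ, hne, hiQ⟩ := yM_other hTwo C hrig hr i T
          exact ⟨i, hi, Q, hQ, hne, hiQ, hS Q hQ (by rw [← hT0]; exact fun h => hne h.symm)⟩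
        · have h1 : ∃ i' ∈ C.through T, i' ∉ C.through P₀ := by
            by_contra hcon
            push Not at hcon
            exact hT0 (hB1 i j T P₀ hij hi hj (hcon i hi) (hcon j hj))
          obtain ⟨i', hi', hi0⟩ := h1
          obtain ⟨Q, hQ, hne, hiQ⟩ := yM_other hTwo C hrig hr i' T
          exact ⟨i', hi', Q, hQ, hne, hiQ, hS Q hQ (by rintro rfl; exact hi0 hiQ)⟩
      obtain ⟨i', hi', Q, hQ, hne, hiQ, hQS⟩ := hex
      refine hRegExc k r n C K T Q i' O E hn0 hroots hexc hne hQ hi' hiQ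
        (hreg Q hQS O hdiv huO) ?_ y hyO hyK
      intro c d hc hcT hdT
      exact (hreg T hTS O hdiv huO).1 d c hdT hcT (((hExc k T).2 O hexc).2.1 c d hc hcT hdT)
    · obtain ⟨Q₁, hQ₁, hne₁, hiQ₁⟩ := yM_other hTwo C hrig hr i T
      obtain ⟨Q₂, hQ₂, hne₂, hiQ₂⟩ := yM_other hTwo C hrig hr j T
      have hR₁ := hreg Q₁ (hS Q₁ hQ₁ (by rw [← hTP]; exact fun h => hne₁ h.symm)) O hdiv huO
      have hR₂ := hreg Q₂ (hS Q₂ hQ₂ (by rw [← hTP]; exact fun h => hne₂ h.symm)) O hdiv huO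
      exact hRegExc k r n C K T Q₁ i O E hn0 hroots hexc hne₁ hQ₁ hi hiQ₁ hR₁
        (hInv k r n C K T Q₁ Q₂ i j O E hn2 hroots hexc hij hne₁ hne₂ hQ₁ hQ₂ hi hj hiQ₁ hiQ₂
          hR₁ hR₂ hinv) y hyO hyK

/-- two different points of `M`, different from `P₀` -/
private lemma yM_two (hSpn : SpnLStmt) (hBas : BasStmt) {k : Type} [Field k] {r : ℕ}
    (C : Config k r) (hrig : C.LinRigid) (hr : 6 ≤ r) (P₀ : Pt k) :
    ∃ P ∈ C.M, ∃ Q ∈ C.M, P ≠ P₀ ∧ Q ≠ P₀ ∧ P ≠ Q := by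
  obtain ⟨hspn, -⟩ := hSpn k r C hrig hr
  have h1 : (Pi.single 0 1 : Fin 3 → k) ≠ 0 := by
    intro h
    have := congrFun h 0
    simp at this
  obtain ⟨P, hP, hP0, -⟩ := hspn P₀ _ h1
  obtain ⟨-, -, hB3, -, -, -⟩ := hBas k r C
  obtain ⟨i, hi, j, hj, m, hm, hij, -, -⟩ := hB3 P hP
  have hne : C.ℓ i ≠ 0 := by
    have := (C.indep i j hij).ne_zero 0
    simpa using this
  obtain ⟨Q, hQ, hQ0, hQi⟩ := hspn P₀ _ hne
  refine ⟨P, hP, Q, hQ, hP0, hQ0, ?_⟩
  rintro rfl
  exact hQi hi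

/-- The core theorem (`CoreLStmt` with `SolFor`). -/
theorem yM_core {k : Type} [Field k] [CharZero k] [IsAlgClosed k] {r n : ℕ} (C : Config k r) (hSol : SolFor C n)
    (K : Type) [Field K] [Algebra (F k) K] [Algebra k K] [IsScalarTower k (F k) K] [FiniteDimensional (F k) K]
    [IsGalois (F k) K] (hrig : C.LinRigid) (hr : 6 ≤ r) (hn : 4 ≤ n) (hroots : Roots K C n)
    (D : Chart C → Chart C → Derivation k K K) (P₀ : Pt k)
    (hext : ∀ P ∈ C.M, P ≠ P₀ → ExtOne n P D)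
    (hcase : ExtOne n P₀ D ∨ ∀ g ∈ NP K P₀, ∀ u v, conjD g (D u v) = D u v)
    (havg0 : ∀ u v, avgD ⊤ (D u v) = 0) : IsBdry n D := by
  classical
  have hMFin := tMFin
  have hHartK := all_hartK
  have hDerUniq := all_derUniq
  have hRegEq := tRegEq
  have hRegMod := tRegMod
  have hRegCurve := all_regCurve
  have hRegExc := all_regExc
  have hInv := all_inv
  have hAvg := tAvg
  have hTwo := all_twoL
  have hSpn := all_spnL
  have hBas := la_bas
  have hExc := all_exc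
  have hn0 : 0 < n := by omega
  have hfin : C.M.Finite := hMFin k r C
  obtain ⟨A, hA, B, hB, hA0, hB0, hAB⟩ := yM_two hSpn hBas C hrig hr P₀
  -- the vector fields for a finite set S of points
  have main : ∀ (S : Finset (Pt k)) (Δ : Pt k → Chart C → Derivation k K K), (∀ P ∈ S, P ∈ C.M) →
      (∀ P ∈ C.M, P ≠ P₀ → P ∈ S) →
      (∀ P ∈ S, (∀ u, ∀ O, IsDiv C O → u.R ≤ O → RegAt C n P O (Δ P u)) ∧ ∀ u v, EqOn P (D u v) (Δ P v - Δ P u)) →
      ((∀ P ∈ C.M, P ∈ S) ∨ ∀ P ∈ S, ∀ u, ∀ g ∈ NP K P₀, conjD g (Δ P u) = Δ P u) →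
      ∃ E : Chart C → Derivation k K K,
        (∀ u v, D u v = E v - E u) ∧
        ∀ u, ∀ P ∈ S, ∀ O, IsDiv C O → u.R ≤ O → RegAt C n P O (E u) := by
    intro S Δ hSM hS hΔ hcS
    obtain ⟨E, hE⟩ := yM_vec C hSol K hrig hr hn hroots P₀ S hSM hS D Δ
      (fun P hP u O hO huO => (hΔ P hP).1 u O hO huO) (fun P hP u v => (hΔ P hP).2 u v) hcS havg0
    refine ⟨E, ?_, ?_⟩
    · intro u v
      have key : ∀ P ∈ S, EqOn P (D u v) (E v - E u) := by
        intro P hP c c' hc hc'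
        have h1 := (hΔ P hP).2 u v c c' hc hc'
        have h2 := hE v P hP c c' hc hc'
        have h3 := hE u P hP c c' hc hc'
        rw [h1, Derivation.sub_apply, Derivation.sub_apply, h2, h3]
      exact hDerUniq k K A B (D u v) (E v - E u) hAB (key A (hS A hA hA0)) (key B (hS B hB hB0))
    · intro u P hP O hO huO
      exact hRegEq k r n C K P O (E u) (Δ P u) hn0 (hE u P hP) ((hΔ P hP).1 u O hO huO)
  rcases hcase with hP0 | hinv
  · -- case 1
    have hSext : ∀ P ∈ hfin.toFinset, ExtOne n P D := by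
      intro P hP
      by_cases h : P = P₀
      · rw [h]; exact hP0
      · exact hext P (hfin.mem_toFinset.1 hP) h
    choose! Δ hΔ using hSext
    obtain ⟨E, hDE, hreg⟩ := main hfin.toFinset Δ (fun P hP => hfin.mem_toFinset.1 hP)
      (fun P hP _ => hfin.mem_toFinset.2 hP) hΔ (Or.inl fun P hP => hfin.mem_toFinset.2 hP)
    refine ⟨E, fun u y hy hyK => ?_, hDE⟩
    exact yM_reg hHartK hRegCurve hRegExc hInv hTwo hSpn hBas hExc C K hrig hr hn hroots P₀ C.M
      (fun P hP _ => hP) u (E u)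
      (fun P hP O hO huO => hreg u P (hfin.mem_toFinset.2 hP) O hO huO)
      (fun T hT => Or.inl hT) y hy hyK
  · -- case 2
    obtain ⟨-, -, -, -, hA5, hA6, hA7, hA8, -, -⟩ := hAvg k K
    have hSext : ∀ P ∈ hfin.toFinset.filter (fun P => P ≠ P₀), ExtOne n P D := by
      intro P hP
      have h := Finset.mem_filter.1 hP
      exact hext P (hfin.mem_toFinset.1 h.1) h.2
    choose! Δ hΔ using hSext
    obtain ⟨E₀, hDE, hreg⟩ := main (hfin.toFinset.filter (fun P => P ≠ P₀)) (fun P u => avgD (NP K P₀) (Δ P u))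
      (fun P hP => hfin.mem_toFinset.1 (Finset.mem_filter.1 hP).1)
      (fun P hP hne => Finset.mem_filter.2 ⟨hfin.mem_toFinset.2 hP, hne⟩) (by
        intro P hP
        constructor
        · intro u O hO huO
          obtain ⟨W, hW, hWg⟩ := (hRegMod k r n C K).2.1 P O
          rw [← hW]
          refine hA8 (NP K P₀) W (fun g _ D' hD' => hWg g D' hD') (Δ P u) ?_
          rw [hW]
          exact (hΔ P hP).1 u O hO huO
        · intro u v
          have h := y_avg_eqOn (NP K P₀) P _ _ ((hΔ P hP).2 u v)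
          rw [hA7 (NP K P₀) (D u v) (fun g hg => hinv g hg u v), hA5] at h
          exact h) (Or.inr fun P _ u g hg => hA6 (NP K P₀) (Δ P u) g hg)
    refine ⟨fun u => avgD (NP K P₀) (E₀ u), fun u y hy hyK => ?_, ?_⟩
    · refine yM_reg hHartK hRegCurve hRegExc hInv hTwo hSpn hBas hExc C K hrig hr hn hroots P₀
        {P | P ∈ C.M ∧ P ≠ P₀} (fun P hP hne => ⟨hP, hne⟩) u (avgD (NP K P₀) (E₀ u)) ?_ ?_ y hy hyK
      · rintro P ⟨hP, hne⟩ O hO huO
        obtain ⟨W, hW, hWg⟩ := (hRegMod k r n C K).2.1 P O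
        rw [← hW]
        refine hA8 (NP K P₀) W (fun g _ D' hD' => hWg g D' hD') (E₀ u) ?_
        rw [hW]
        exact hreg u P (Finset.mem_filter.2 ⟨hfin.mem_toFinset.2 hP, hne⟩) O hO huO
      · intro T hT
        by_cases h : T = P₀
        · refine Or.inr ⟨h, fun g hg => ?_⟩
          rw [h] at hg
          exact hA6 (NP K P₀) (E₀ u) g hg
        · exact Or.inl ⟨hT, h⟩
    · intro u v
      change D u v = avgD (NP K P₀) (E₀ v) - avgD (NP K P₀) (E₀ u)
      rw [← hA5, ← hDE u v]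
      exact (hA7 (NP K P₀) (D u v) (fun g hg => hinv g hg u v)).symm

end Pool.Agent.Lib.MP_4318ff_ag
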