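import Pool.Agent.Lib.MP_4318ff_ag.Y.Sol

/-!
# MP_4318ff_ag, module Y/CoreI: the core theorem for infinitesimally rigid configurations, with `SolFor`
-/

set_option autoImplicit false

namespace Pool.Agent.Lib.MP_4318ff_ag

open scoped LinearAlgebra.Projectivization

private lemma yI_dotE {k : Type} [Field k] {K : Type} [Field K] [Algebra (F k) K] [Algebra k K]
    [IsScalarTower k (F k) K] (Δ : Derivation k K K) (c : Fin 3 → k) :
    dotE c (fun j => Δ (algebraMap (F k) K (gen k j))) = Δ (algebraMap (F k) K (ev c)) := by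
  unfold dotE ev
  rw [map_sum, map_sum]
  refine Finset.sum_congr rfl fun i _ => ?_
  rw [map_mul, ← IsScalarTower.algebraMap_apply, ← Algebra.smul_def, Derivation.map_smul]

private lemma yI_ne {k : Type} [Field k] {r : ℕ} (C : Config k r) (hr : 6 ≤ r) (i : Fin r) :
    C.ℓ i ≠ 0 := by
  obtain ⟨j, hj⟩ : ∃ j : Fin r, i ≠ j := by
    by_cases h : i = ⟨0, by omega⟩
    · exact ⟨⟨1, by omega⟩, by rw [h]; simp⟩
    · exact ⟨⟨0, by omega⟩, h⟩
  exact (C.indep i j hj).ne_zero 0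

/-- One vector field for all pencils (`VecStmt` with `SolFor`). -/
theorem yI_vec {k : Type} [Field k] [CharZero k] [IsAlgClosed k] {r n : ℕ} (C : Config k r) (hSol : SolFor C n)
    (K : Type) [Field K] [Algebra (F k) K] [Algebra k K] [IsScalarTower k (F k) K] [FiniteDimensional (F k) K]
    [IsGalois (F k) K] (hR : C.InfRigid) (hr : 6 ≤ r) (hroots : Roots K C n)
    (P₀ : Pt k) (S : Finset (Pt k)) (hS1 : ∀ P ∈ S, P ∈ C.M) (hS2 : ∀ P ∈ C.M, P ≠ P₀ → P ∈ S)
    (D : Chart C → Chart C → Derivation k K K) (Δ : Pt k → Chart C → Derivation k K K)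
    (hreg : ∀ P ∈ S, ∀ u O, IsDiv C O → u.R ≤ O → RegAt C n P O (Δ P u))
    (heq : ∀ P ∈ S, ∀ u v, EqOn P (D u v) (Δ P v - Δ P u))
    (hcase : (∀ P ∈ C.M, P ∈ S) ∨ ∀ P ∈ S, ∀ u, ∀ g ∈ NP K P₀, conjD g (Δ P u) = Δ P u) :
    ∃ E : Chart C → Derivation k K K, ∀ u, ∀ P ∈ S, EqOn P (E u) (Δ P u) := by
  classical
  have hEv := tEv
  have hLA5 := la_5
  have hDerV := tDerV
  have hPen := all_pen
  have hne : ∀ i, algebraMap (F k) K (ev (C.ℓ i)) ≠ 0 := by
    intro i h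
    have h1 : ev (C.ℓ i) = 0 := (map_eq_zero (algebraMap (F k) K)).1 h
    exact yI_ne C hr i (((hEv k).2.2 (C.ℓ i)).1 h1)
  have key : ∀ u : Chart C, ∃ E : Derivation k K K, ∀ P ∈ S, EqOn P E (Δ P u) := by
    intro u
    obtain ⟨s, a, v, hsa, hv⟩ := hLA5 k r C hR hr P₀ S hS1 hS2 K
      (fun P i => Δ P u (algebraMap (F k) K (ev (C.ℓ i))) / algebraMap (F k) K (ev (C.ℓ i)))
      (fun P j => Δ P u (algebraMap (F k) K (gen k j)))
      (by
        intro P _ i _
        rw [div_mul_cancel₀ _ (hne i)]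
        exact (yI_dotE (Δ P u) (C.ℓ i)).symm)
      (by
        intro T hT ρ hρS hrel hsum
        exact hSol K hroots P₀ S hS1 hS2 D Δ hreg heq hcase T hT ρ hρS hrel hsum u)
    obtain ⟨E, hE⟩ := hDerV k K v
    refine ⟨E, fun P hP => ?_⟩
    have hE2 : ∀ i, E (algebraMap (F k) K (ev (C.ℓ i))) / algebraMap (F k) K (ev (C.ℓ i)) =
        s i - v 0 := by
      intro i
      rw [div_eq_iff (hne i), hE, sub_mul, ← hv i]
      congr 1
      unfold dotE
      refine Finset.sum_congr rfl fun j _ => ?_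
      rw [Algebra.smul_def]
    refine hPen k r C K P E (Δ P u) (hS1 P hP) ?_
    intro i hi j hj
    have h2 := hsa P hP i hi
    have h3 := hsa P hP j hj
    simp only at h2 h3 ⊢
    rw [hE2 i, hE2 j, h2, h3]
    ring
  choose E hE using key
  exact ⟨E, hE⟩

private lemma yI_ic_mono {k : Type} [Field k] (K : Type) [Field K] [Algebra (F k) K]
    {S T : Subalgebra k (F k)} (h : S ≤ T) {y : K} (hy : y ∈ ic K S) : y ∈ ic K T := by
  obtain ⟨f, hf, hfy⟩ := (show IsIntegral S y from hy)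
  refine (show IsIntegral T y from ⟨f.map (Subalgebra.inclusion h).toRingHom, hf.map _, ?_⟩)
  rw [Polynomial.eval₂_map]
  exact hfy

/-- a second point of `M` on a line -/
private lemma yI_other (hTwo : TwoStmt) {k : Type} [Field k] {r : ℕ} (C : Config k r)
    (hrig : C.InfRigid) (hr : 6 ≤ r) (i : Fin r) (T : Pt k) :
    ∃ Q ∈ C.M, T ≠ Q ∧ i ∈ C.through Q := by
  obtain ⟨P, hP, Q, hQ, hPQ, hiP, hiQ⟩ := hTwo k r C hrig hr i
  by_cases h : T = P
  · exact ⟨Q, hQ, by rw [h]; exact hPQ, hiQ⟩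
  · exact ⟨P, hP, h, hiP⟩

/-- regularity of the cochain -/
private lemma yI_reg (hHartK : HartKStmt) (hRegCurve : RegCurveStmt) (hRegExc : RegExcStmt)
    (hInv : InvStmt) (hTwo : TwoStmt) (hSpn : SpnStmt) (hBas : BasStmt) (hExc : ExcStmt)
    {k : Type} [Field k] [CharZero k] [IsAlgClosed k] {r n : ℕ} (C : Config k r) (K : Type)
    [Field K] [Algebra (F k) K] [Algebra k K] [IsScalarTower k (F k) K] [FiniteDimensional (F k) K]
    [IsGalois (F k) K] (hrig : C.InfRigid) (hr : 6 ≤ r) (hn : 4 ≤ n) (hroots : Roots K C n)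
    (P₀ : Pt k) (S : Set (Pt k)) (hS : ∀ P ∈ C.M, P ≠ P₀ → P ∈ S)
    (u : Chart C) (E : Derivation k K K)
    (hreg : ∀ P ∈ S, ∀ O, IsDiv C O → u.R ≤ O → RegAt C n P O E)
    (hcase : ∀ T ∈ C.M, T ∈ S ∨ (T = P₀ ∧ ∀ g ∈ NP K T, conjD g E = E))
    (y : K) (hy : y ∈ ic K u.R) (hyK : y ∈ Kummer K C n) : E y ∈ ic K u.R := by
  have hn0 : 0 < n := by omega
  have hn2 : 2 ≤ n := by omega
  refine hHartK k r C K u (E y) fun O hO huO => ?_
  have hyO : y ∈ ic K O := yI_ic_mono K huO hy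
  rcases hO with hcur | ⟨T, hT, hexc⟩
  · refine hRegCurve k r n C K O E P₀ hn0 hroots hcur ?_ ?_ ?_ y hyO hyK
    · intro i
      obtain ⟨P, hP, hne, hiP⟩ := yI_other hTwo C hrig hr i P₀
      exact ⟨P, hP, fun h => hne h.symm, hiP⟩
    · exact (hSpn k r C hrig hr).1 P₀
    · intro P hP hne
      exact hreg P (hS P hP hne) O (Or.inl hcur) huO
  · have hdiv : IsDiv C O := Or.inr ⟨T, hT, hexc⟩
    obtain ⟨hB1, -, hB3, -, -, -⟩ := hBas k r C
    obtain ⟨i, hi, j, hj, m, hm, hij, him, hjm⟩ := hB3 T hT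
    rcases hcase T hT with hTS | ⟨hTP, hinv⟩
    · -- a line through T and a point of S on it
      have hex : ∃ i' ∈ C.through T, ∃ Q ∈ C.M, T ≠ Q ∧ i' ∈ C.through Q ∧ Q ∈ S := by
        by_cases hT0 : T = P₀
        · obtain ⟨Q, hQ, hne, hiQ⟩ := yI_other hTwo C hrig hr i T
          exact ⟨i, hi, Q, hQ, hne, hiQ, hS Q hQ (by rw [← hT0]; exact fun h => hne h.symm)⟩
        · have h1 : ∃ i' ∈ C.through T, i' ∉ C.through P₀ := by
            by_contra hcon
            push Not at hcon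
            exact hT0 (hB1 i j T P₀ hij hi hj (hcon i hi) (hcon j hj))
          obtain ⟨i', hi', hi0⟩ := h1
          obtain ⟨Q, hQ, hne, hiQ⟩ := yI_other hTwo C hrig hr i' T
          exact ⟨i', hi', Q, hQ, hne, hiQ, hS Q hQ (by rintro rfl; exact hi0 hiQ)⟩
      obtain ⟨i', hi', Q, hQ, hne, hiQ, hQS⟩ := hex
      refine hRegExc k r n C K T Q i' O E hn0 hroots hexc hne hQ hi' hiQ
        (hreg Q hQS O hdiv huO) ?_ y hyO hyK
      intro c d hc hcT hdT
      exact (hreg T hTS O hdiv huO).1 d c hdT hcT (((hExc k T).2 O hexc).2.1 c d hc hcT hdT)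
    · obtain ⟨Q₁, hQ₁, hne₁, hiQ₁⟩ := yI_other hTwo C hrig hr i T
      obtain ⟨Q₂, hQ₂, hne₂, hiQ₂⟩ := yI_other hTwo C hrig hr j T
      have hR₁ := hreg Q₁ (hS Q₁ hQ₁ (by rw [← hTP]; exact fun h => hne₁ h.symm)) O hdiv huO
      have hR₂ := hreg Q₂ (hS Q₂ hQ₂ (by rw [← hTP]; exact fun h => hne₂ h.symm)) O hdiv huO
      exact hRegExc k r n C K T Q₁ i O E hn0 hroots hexc hne₁ hQ₁ hi hiQ₁ hR₁
        (hInv k r n C K T Q₁ Q₂ i j O E hn2 hroots hexc hij hne₁ hne₂ hQ₁ hQ₂ hi hj hiQ₁ hiQ₂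
          hR₁ hR₂ hinv) y hyO hyK

/-- two different points of `M`, different from `P₀` -/
private lemma yI_two (hSpn : SpnStmt) (hBas : BasStmt) {k : Type} [Field k] {r : ℕ}
    (C : Config k r) (hrig : C.InfRigid) (hr : 6 ≤ r) (P₀ : Pt k) :
    ∃ P ∈ C.M, ∃ Q ∈ C.M, P ≠ P₀ ∧ Q ≠ P₀ ∧ P ≠ Q := by
  obtain ⟨hspn, -⟩ := hSpn k r C hrig hr
  have h1 : (Pi.single 0 1 : Fin 3 → k) ≠ 0 := by
    intro h
    have := congrFun h 0
    simp at this
  obtain ⟨P, hP, hP0, -⟩ := hspn P₀ _ h1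
  obtain ⟨-, -, hB3, -, -, -⟩ := hBas k r C
  obtain ⟨i, hi, j, hj, m, hm, hij, -, -⟩ := hB3 P hP
  have hne : C.ℓ i ≠ 0 := by
    have := (C.indep i j hij).ne_zero 0
    simpa using this
  obtain ⟨Q, hQ, hQ0, hQi⟩ := hspn P₀ _ hne
  refine ⟨P, hP, Q, hQ, hP0, hQ0, ?_⟩
  rintro rfl
  exact hQi hi

/-- The core theorem. -/
theorem yI_core {k : Type} [Field k] [CharZero k] [IsAlgClosed k] {r n : ℕ} (C : Config k r) (hSol : SolFor C n)
    (K : Type) [Field K] [Algebra (F k) K] [Algebra k K] [IsScalarTower k (F k) K] [FiniteDimensional (F k) K]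
    [IsGalois (F k) K] (hrig : C.InfRigid) (hr : 6 ≤ r) (hn : 4 ≤ n) (hroots : Roots K C n)
    (D : Chart C → Chart C → Derivation k K K) (P₀ : Pt k)
    (hext : ∀ P ∈ C.M, P ≠ P₀ → ExtOne n P D)
    (hcase : ExtOne n P₀ D ∨ ∀ g ∈ NP K P₀, ∀ u v, conjD g (D u v) = D u v) : IsBdry n D := by
  classical
  have hMFin := tMFin
  have hHartK := all_hartK
  have hDerUniq := all_derUniq
  have hRegEq := tRegEq
  have hRegMod := tRegMod
  have hRegCurve := all_regCurve
  have hRegExc := all_regExc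
  have hInv := all_inv
  have hAvg := tAvg
  have hTwo := la_two
  have hSpn := la_spn
  have hBas := la_bas
  have hExc := all_exc
  have hn0 : 0 < n := by omega
  have hfin : C.M.Finite := hMFin k r C
  obtain ⟨A, hA, B, hB, hA0, hB0, hAB⟩ := yI_two hSpn hBas C hrig hr P₀
  -- the vector fields for a finite set S of points
  have main : ∀ (S : Finset (Pt k)) (Δ : Pt k → Chart C → Derivation k K K), (∀ P ∈ S, P ∈ C.M) →
      (∀ P ∈ C.M, P ≠ P₀ → P ∈ S) →
      (∀ P ∈ S, (∀ u, ∀ O, IsDiv C O → u.R ≤ O → RegAt C n P O (Δ P u)) ∧ ∀ u v, EqOn P (D u v) (Δ P v - Δ P u)) →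
      ((∀ P ∈ C.M, P ∈ S) ∨ ∀ P ∈ S, ∀ u, ∀ g ∈ NP K P₀, conjD g (Δ P u) = Δ P u) →
      ∃ E : Chart C → Derivation k K K,
        (∀ u v, D u v = E v - E u) ∧
        ∀ u, ∀ P ∈ S, ∀ O, IsDiv C O → u.R ≤ O → RegAt C n P O (E u) := by
    intro S Δ hSM hS hΔ hcS
    obtain ⟨E, hE⟩ := yI_vec C hSol K hrig hr hroots P₀ S hSM hS D Δ
      (fun P hP u O hO huO => (hΔ P hP).1 u O hO huO) (fun P hP u v => (hΔ P hP).2 u v) hcS
    refine ⟨E, ?_, ?_⟩
    · intro u v
      have key : ∀ P ∈ S, EqOn P (D u v) (E v - E u) := by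
        intro P hP c c' hc hc'
        have h1 := (hΔ P hP).2 u v c c' hc hc'
        have h2 := hE v P hP c c' hc hc'
        have h3 := hE u P hP c c' hc hc'
        rw [h1, Derivation.sub_apply, Derivation.sub_apply, h2, h3]
      exact hDerUniq k K A B (D u v) (E v - E u) hAB (key A (hS A hA hA0)) (key B (hS B hB hB0))
    · intro u P hP O hO huO
      exact hRegEq k r n C K P O (E u) (Δ P u) hn0 (hE u P hP) ((hΔ P hP).1 u O hO huO)
  rcases hcase with hP0 | hinv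
  · -- case 1
    have hSext : ∀ P ∈ hfin.toFinset, ExtOne n P D := by
      intro P hP
      by_cases h : P = P₀
      · rw [h]; exact hP0
      · exact hext P (hfin.mem_toFinset.1 hP) h
    choose! Δ hΔ using hSext
    obtain ⟨E, hDE, hreg⟩ := main hfin.toFinset Δ (fun P hP => hfin.mem_toFinset.1 hP)
      (fun P hP _ => hfin.mem_toFinset.2 hP) hΔ (Or.inl fun P hP => hfin.mem_toFinset.2 hP)
    refine ⟨E, fun u y hy hyK => ?_, hDE⟩
    exact yI_reg hHartK hRegCurve hRegExc hInv hTwo hSpn hBas hExc C K hrig hr hn hroots P₀ C.M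
      (fun P hP _ => hP) u (E u)
      (fun P hP O hO huO => hreg u P (hfin.mem_toFinset.2 hP) O hO huO)
      (fun T hT => Or.inl hT) y hy hyK
  · -- case 2
    obtain ⟨-, -, -, -, hA5, hA6, hA7, hA8, -, -⟩ := hAvg k K
    have hSext : ∀ P ∈ hfin.toFinset.filter (fun P => P ≠ P₀), ExtOne n P D := by
      intro P hP
      have h := Finset.mem_filter.1 hP
      exact hext P (hfin.mem_toFinset.1 h.1) h.2
    choose! Δ hΔ using hSext
    obtain ⟨E₀, hDE, hreg⟩ := main (hfin.toFinset.filter (fun P => P ≠ P₀)) (fun P u => avgD (NP K P₀) (Δ P u))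
      (fun P hP => hfin.mem_toFinset.1 (Finset.mem_filter.1 hP).1)
      (fun P hP hne => Finset.mem_filter.2 ⟨hfin.mem_toFinset.2 hP, hne⟩) (by
        intro P hP
        constructor
        · intro u O hO huO
          obtain ⟨W, hW, hWg⟩ := (hRegMod k r n C K).2.1 P O
          rw [← hW]
          refine hA8 (NP K P₀) W (fun g _ D' hD' => hWg g D' hD') (Δ P u) ?_
          rw [hW]
          exact (hΔ P hP).1 u O hO huO
        · intro u v
          have h := y_avg_eqOn (NP K P₀) P _ _ ((hΔ P hP).2 u v)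
          rw [hA7 (NP K P₀) (D u v) (fun g hg => hinv g hg u v), hA5] at h
          exact h) (Or.inr fun P _ u g hg => hA6 (NP K P₀) (Δ P u) g hg)
    refine ⟨fun u => avgD (NP K P₀) (E₀ u), fun u y hy hyK => ?_, ?_⟩
    · refine yI_reg hHartK hRegCurve hRegExc hInv hTwo hSpn hBas hExc C K hrig hr hn hroots P₀
        {P | P ∈ C.M ∧ P ≠ P₀} (fun P hP hne => ⟨hP, hne⟩) u (avgD (NP K P₀) (E₀ u)) ?_ ?_ y hy hyK
      · rintro P ⟨hP, hne⟩ O hO huO
        obtain ⟨W, hW, hWg⟩ := (hRegMod k r n C K).2.1 P O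
        rw [← hW]
        refine hA8 (NP K P₀) W (fun g _ D' hD' => hWg g D' hD') (E₀ u) ?_
        rw [hW]
        exact hreg u P (Finset.mem_filter.2 ⟨hfin.mem_toFinset.2 hP, hne⟩) O hO huO
      · intro T hT
        by_cases h : T = P₀
        · refine Or.inr ⟨h, fun g hg => ?_⟩
          rw [h] at hg
          exact hA6 (NP K P₀) (E₀ u) g hg
        · exact Or.inl ⟨hT, h⟩
    · intro u v
      change D u v = avgD (NP K P₀) (E₀ v) - avgD (NP K P₀) (E₀ u)
      rw [← hA5, ← hDE u v]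
      exact (hA7 (NP K P₀) (D u v) (fun g hg => hinv g hg u v)).symm

end Pool.Agent.Lib.MP_4318ff_ag
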