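import Pool.Agent.Lib.MP_4318ff_ag.Y.MTI

/-!
# MP_4318ff_ag, module Y/EtI: etale coverings, infinitesimally rigid configurations, with `SolFor`
-/

set_option autoImplicit false

namespace Pool.Agent.Lib.MP_4318ff_ag

open scoped LinearAlgebra.Projectivization

/-- Roots of unity lie in an algebraically closed subfield. -/
private theorem yI_eone {k : Type} [Field k] [IsAlgClosed k] {L : Type} [Field L] [Algebra k L]
    {n : ℕ} (hn : 0 < n) (η : L) (h : η ^ n = 1) : ∃ ζ : k, algebraMap k L ζ = η := by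
  have hint : IsIntegral k η := by
    refine ⟨Polynomial.X ^ n - Polynomial.C 1, Polynomial.monic_X_pow_sub_C 1 hn.ne', ?_⟩
    simp [h]
  have h1 := IsAlgClosed.degree_eq_one_of_irreducible k (minpoly.irreducible hint)
  exact minpoly.mem_range_of_degree_eq_one k η h1

private theorem yI_eroot {k : Type} [Field k] [IsAlgClosed k] {K L : Type} [Field K] [Field L]
    [Algebra k K] [Algebra k L] [Algebra K L] [IsScalarTower k K L] {n : ℕ} (hn : 0 < n)
    (z : L) (u : K) (h : z ^ n = algebraMap K L (u ^ n)) :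
    ∃ v : K, algebraMap K L v = z := by
  by_cases hu : u = 0
  · refine ⟨0, ?_⟩
    rw [map_zero]
    rw [hu, zero_pow hn.ne', map_zero] at h
    exact (pow_eq_zero_iff hn.ne').1 h |>.symm
  · have hu' : algebraMap K L u ≠ 0 := by
      rwa [Ne, map_eq_zero]
    obtain ⟨ζ, hζ⟩ := yI_eone (k := k) hn (z / algebraMap K L u) (by
      rw [div_pow, h, map_pow, div_self (pow_ne_zero n hu')])
    refine ⟨algebraMap k K ζ * u, ?_⟩
    rw [map_mul, ← IsScalarTower.algebraMap_apply, hζ, div_mul_cancel₀ _ hu']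

/-- The Kummer field of `L` is contained in `K`. -/
private theorem yI_erange {k : Type} [Field k] [IsAlgClosed k] {r : ℕ} (C : Config k r) (n : ℕ)
    (hn : 0 < n) (K L : Type) [Field K] [Field L] [Algebra (F k) K] [Algebra (F k) L]
    [Algebra K L] [IsScalarTower (F k) K L] [Algebra k K] [Algebra k L] [IsScalarTower k K L]
    (hR : Roots K C n) : ∀ x ∈ Kummer L C n, ∃ y : K, algebraMap K L y = x := by
  have h : Kummer L C n ≤ (algebraMap K L).fieldRange := by
    unfold Kummer
    rw [Subfield.closure_le]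
    rintro x (⟨f, rfl⟩ | ⟨i, j, hij⟩)
    · rw [IsScalarTower.algebraMap_apply (F k) K L]
      exact ⟨_, rfl⟩
    · obtain ⟨u, hu⟩ := hR i j
      rw [IsScalarTower.algebraMap_apply (F k) K L, ← hu] at hij
      obtain ⟨v, hv⟩ := yI_eroot (k := k) hn x u hij
      exact ⟨v, hv⟩
  intro x hx
  exact h hx

/-- The main argument for a finite Galois extension `L` of `F` containing `K`. -/
private theorem yI_ecore (hED : ExtDerStmt) (hOv : OverlapStmt) (hES : EtStepStmt) 
    (k : Type) [Field k] [CharZero k] [IsAlgClosed k] (hS1 : S1Stmt k) (r n : ℕ) (C : Config k r)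
    (K : Type) [Field K] [Algebra (F k) K] [Algebra k K] [IsScalarTower k (F k) K]
    (L : Type) [Field L] [Algebra (F k) L] [Algebra K L] [IsScalarTower (F k) K L] [Algebra k L]
    [IsScalarTower k (F k) L] [FiniteDimensional (F k) L] [IsGalois (F k) L]
    (hC : C.InfRigid) (hr : 6 ≤ r) (hn4 : 4 ≤ n) (hSol : SolFor C n) (hK : IsEtaleCover C n K)
    (D : Chart C → Chart C → Derivation k K K)
    (hA : ∀ u v, ∀ x ∈ u.A K ⊔ v.A K, D u v x ∈ u.A K ⊔ v.A K) (hD : IsCocycle D) :
    ∃ E : Chart C → Derivation k K K, (∀ u, ∀ x ∈ u.A K, E u x ∈ u.A K) ∧ ∀ u v, D u v = E v - E u := by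
  have hkKL : IsScalarTower k K L := by
    refine IsScalarTower.of_algebraMap_eq fun x => ?_
    rw [IsScalarTower.algebraMap_apply k (F k) L, IsScalarTower.algebraMap_apply k (F k) K,
      IsScalarTower.algebraMap_apply (F k) K L]
  obtain ⟨h1, h2, h3, T, T1, T2, T3⟩ := hED k K L
  choose ext hext using h1
  have hcoc : IsCocycle (fun u v => ext (D u v)) := by
    intro u v w
    refine h2 _ _ fun x => ?_
    change (ext (D u v)) (algebraMap K L x) + (ext (D v w)) (algebraMap K L x) = _
    rw [hext, hext, hext, ← map_add, ← hD u v w]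
    rfl
  have hRL : Roots L C n := by
    intro i j
    obtain ⟨z, hz⟩ := hK.roots i j
    exact ⟨algebraMap K L z, by rw [← map_pow, hz, ← IsScalarTower.algebraMap_apply]⟩
  have hPresL : Pres n (fun u v => ext (D u v)) := by
    intro u v y hy hyK
    obtain ⟨x, rfl⟩ := yI_erange C n (by omega) K L hK.roots y hyK
    change ext (D u v) (algebraMap K L x) ∈ ic L (u.R ⊔ v.R)
    rw [hext, h3, hOv]
    rw [h3, hOv] at hy
    exact hA u v x hy
  obtain ⟨E', hE', hEb⟩ := yI_mt hS1 C hSol L hC hr hn4 hRL _ hcoc hPresL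
  have : CharZero K := charZero_of_injective_algebraMap (algebraMap k K).injective
  refine ⟨fun u => T (E' u), ?_, ?_⟩
  · intro u x hx
    refine hES K _ _ _ (hK.etale u) ((T (E' u)).restrictScalars ℤ) ?_ (et_int C n K u) x hx
    rintro y ⟨hy1, hy2⟩
    change T (E' u) y ∈ u.A K
    refine T3 u.R (E' u) y ?_
    refine hE' u _ ?_ (et_kummer C n K L y hy2)
    exact (h3 u.R y).2 hy1
  · intro u v
    rw [← T1, ← hEb u v]
    exact (T2 (D u v) (ext (D u v)) (hext (D u v))).symm

/-- **Etale coverings of `HK_C(n)`, `C` infinitesimally rigid, `SolFor C n`: the first cohomology of the tangent sheaf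
vanishes.** -/
theorem h1_of_sol {k : Type} [Field k] [CharZero k] [IsAlgClosed k] (hS1 : S1Stmt k) {r n : ℕ} (C : Config k r)
    (hC : C.InfRigid) (hr : 6 ≤ r) (hn4 : 4 ≤ n) (hSol : SolFor C n) (K : Type) [Field K] [Algebra (F k) K] [Algebra k K]
    [IsScalarTower k (F k) K] (hK : IsEtaleCover C n K) : H1Vanishes C K := by
  intro D hA hD
  have := hK.finite
  have : CharZero (F k) := charZero_of_injective_algebraMap (algebraMap k (F k)).injective
  have : Algebra.IsAlgebraic (F k) (AlgebraicClosure K) := Algebra.IsAlgebraic.trans (F k) K (AlgebraicClosure K)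
  have : IsAlgClosure (F k) (AlgebraicClosure K) := ⟨inferInstance, inferInstance⟩
  have : Normal (F k) (AlgebraicClosure K) := IsAlgClosure.normal (F k) (AlgebraicClosure K)
  exact yI_ecore tExtDer all_overlap tEtStep k hS1 r n C K
    (IntermediateField.normalClosure (F k) K (AlgebraicClosure K)) hC hr hn4 hSol hK D hA hD

/-- **Main theorem for infinitesimally rigid configurations, with the case of the complete quadrangle and `n = 4`**, given
part S. -/
theorem h1_of_S1 (k : Type) [Field k] [CharZero k] [IsAlgClosed k] (hS1 : S1Stmt k) (r n : ℕ) (C : Config k r)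
    (hC : C.InfRigid) (hr : 6 ≤ r) (hn4 : 4 ≤ n) (h : r ≤ n + 1 ∨ r = 6) (K : Type) [Field K] [Algebra (F k) K]
    [Algebra k K] [IsScalarTower k (F k) K] (hK : IsEtaleCover C n K) : H1Vanishes C K :=
  h1_of_sol hS1 C hC hr hn4 (solFor_of_lin C (tLinInf k r C hC) hn4 h) K hK

end Pool.Agent.Lib.MP_4318ff_ag
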