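import Pool.Agent.Lib.MP_4318ff_ag.Spec.A4

/-!
# MP_4318ff_ag, module Y/Indep: linear independence of Kummer eigenvectors
-/

set_option autoImplicit false

namespace Pool.Agent.Lib.MP_4318ff_ag

open scoped LinearAlgebra.Projectivization

section indep

variable {k : Type} [Field k] {K : Type} [Field K] [Algebra (F k) K] [Algebra k K] [IsScalarTower k (F k) K]

/-- Eigenvectors with different characters are independent. -/
theorem y_eig {ι : Type} (s : Finset ι) (x : ι → K) (χ : ι → (K ≃ₐ[F k] K) → k) (hx : ∀ a ∈ s, x a ≠ 0)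
    (hχ : ∀ a ∈ s, ∀ σ : K ≃ₐ[F k] K, σ (x a) = algebraMap k K (χ a σ) * x a)
    (hd : ∀ a ∈ s, ∀ b ∈ s, a ≠ b → ∃ σ, χ a σ ≠ χ b σ) (c : ι → k)
    (h : ∑ a ∈ s, algebraMap k K (c a) * x a = 0) : ∀ a ∈ s, c a = 0 := by
  classical
  induction s using Finset.induction_on generalizing c with
  | empty => intro a ha; exact absurd ha (Finset.notMem_empty a)
  | insert b s hb ih =>
    rw [Finset.sum_insert hb] at h
    have hs : ∀ a ∈ s, c a = 0 := by
      intro a ha
      have hab : a ≠ b := fun e => hb (e ▸ ha)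
      obtain ⟨σ, hσ⟩ := hd a (Finset.mem_insert_of_mem ha) b (Finset.mem_insert_self b s) hab
      have hk : ∀ t : k, σ (algebraMap k K t) = algebraMap k K t := by
        intro t
        rw [IsScalarTower.algebraMap_apply k (F k) K, AlgEquiv.commutes]
      have h1 := congrArg σ h
      rw [map_add, map_mul, hk, hχ b (Finset.mem_insert_self b s), map_sum, map_zero] at h1
      have h2 : ∑ a ∈ s, algebraMap k K (c a * (χ a σ - χ b σ)) * x a = 0 := by
        have h3 : ∑ a ∈ s, algebraMap k K (c a * (χ a σ - χ b σ)) * x a =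
            (∑ a ∈ s, σ (algebraMap k K (c a) * x a)) - algebraMap k K (χ b σ) *
              ∑ a ∈ s, algebraMap k K (c a) * x a := by
          rw [Finset.mul_sum, ← Finset.sum_sub_distrib]
          refine Finset.sum_congr rfl fun a ha => ?_
          rw [map_mul σ, hk, hχ a (Finset.mem_insert_of_mem ha), map_mul, map_sub]
          ring
        rw [h3]
        linear_combination h1 - algebraMap k K (χ b σ) * h
      have h4 := ih (fun a ha => hx a (Finset.mem_insert_of_mem ha)) (fun a ha => hχ a (Finset.mem_insert_of_mem ha))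
        (fun a ha b hb => hd a (Finset.mem_insert_of_mem ha) b (Finset.mem_insert_of_mem hb))
        (fun a => c a * (χ a σ - χ b σ)) h2 a ha
      exact (mul_eq_zero.1 h4).resolve_right (sub_ne_zero.2 hσ)
    intro a ha
    rcases Finset.mem_insert.1 ha with rfl | ha
    · rw [Finset.sum_eq_zero (fun a ha => by rw [hs a ha, map_zero, zero_mul]), add_zero] at h
      have h5 := (mul_eq_zero.1 h).resolve_right (hx a (Finset.mem_insert_self a s))
      exact (map_eq_zero_iff _ (algebraMap k K).injective).1 h5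
    · exact hs a ha

/-- Elements of `K` with an `n`-th power equal to `1` are in `k`. -/
theorem y_root [IsAlgClosed k] (y : K) (n : ℕ) (hn : 0 < n) (c : k) (hy : y ^ n = algebraMap k K c) :
    ∃ t : k, y = algebraMap k K t := by
  have h3 : IsIntegral k y := by
    refine IsIntegral.of_pow hn ?_
    rw [hy]
    exact isIntegral_algebraMap
  obtain ⟨c, hc⟩ := minpoly.mem_range_of_degree_eq_one k y
    (IsAlgClosed.degree_eq_one_of_irreducible k (minpoly.irreducible h3))
  exact ⟨c, hc.symm⟩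

/-- Independence of Kummer elements: if `x a ^ n ∈ F`, no quotient is in `F` and the sum is `0`, then all are `0`. -/
theorem y_kummer [IsAlgClosed k] [FiniteDimensional (F k) K] [IsGalois (F k) K] {ι : Type} (s : Finset ι) (x : ι → K)
    (n : ℕ) (hn : 0 < n) (hx : ∀ a ∈ s, ∃ f : F k, x a ^ n = algebraMap (F k) K f)
    (hq : ∀ a ∈ s, ∀ b ∈ s, a ≠ b → x a ≠ 0 → x b ≠ 0 → ∀ f : F k, x a ≠ algebraMap (F k) K f * x b)
    (h : ∑ a ∈ s, x a = 0) : ∀ a ∈ s, x a = 0 := by
  classical
  by_contra hcon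
  push Not at hcon
  obtain ⟨a₀, ha₀, hxa₀⟩ := hcon
  have hex : ∀ a, a ∈ s → x a ≠ 0 → ∀ σ : K ≃ₐ[F k] K, ∃ t : k, σ (x a) = algebraMap k K t * x a := by
    intro a ha hxa σ
    obtain ⟨f, hf⟩ := hx a ha
    obtain ⟨t, ht⟩ := y_root (k := k) (σ (x a) / x a) n hn 1 (by
      rw [div_pow, ← map_pow, hf, AlgEquiv.commutes, map_one, ← hf, div_self (pow_ne_zero _ hxa)])
    refine ⟨t, ?_⟩
    rw [← ht, div_mul_cancel₀ _ hxa]
  choose! χ hχ using hex
  have h1 : ∑ a ∈ s.filter (fun a => x a ≠ 0), algebraMap k K 1 * x a = 0 := by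
    refine Eq.trans ?_ h
    rw [Finset.sum_filter]
    refine Finset.sum_congr rfl fun a _ => ?_
    by_cases hxa : x a = 0
    · rw [if_neg (fun h => h hxa), hxa]
    · rw [if_pos hxa, map_one, one_mul]
  have h2 := y_eig (s.filter (fun a => x a ≠ 0)) x χ (fun a ha => (Finset.mem_filter.1 ha).2)
    (fun a ha σ => hχ a (Finset.mem_filter.1 ha).1 (Finset.mem_filter.1 ha).2 σ) (by
      intro a ha b hb hab
      rw [Finset.mem_filter] at ha hb
      by_contra hno
      push Not at hno
      -- the quotient is fixed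
      have h3 : ∀ σ : K ≃ₐ[F k] K, σ (x a / x b) = x a / x b := by
        intro σ
        rw [map_div₀, hχ a ha.1 ha.2 σ, hχ b hb.1 hb.2 σ, hno σ]
        have h4 : algebraMap k K (χ b σ) ≠ 0 := by
          intro h5
          have h6 := hχ b hb.1 hb.2 σ
          rw [h5, zero_mul] at h6
          exact hb.2 ((map_eq_zero σ).1 h6)
        rw [mul_div_mul_left _ _ h4]
      have h4 : x a / x b ∈ (⊥ : IntermediateField (F k) K) := IsGalois.mem_bot_iff_fixed (x a / x b) |>.2 h3
      rw [IntermediateField.mem_bot] at h4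
      obtain ⟨f, hf⟩ := h4
      apply hq a ha.1 b hb.1 hab ha.2 hb.2 f
      rw [hf, div_mul_cancel₀ _ hb.2]) (fun _ => 1) h1 a₀ (Finset.mem_filter.2 ⟨ha₀, hxa₀⟩)
  exact one_ne_zero h2

end indep

/-- The local ring of a line of the configuration. -/
theorem y_line (hEv : EvStmt) (hCo : CoordStmt) (hLo : LocStmt) (hCu : CurveStmt) {k : Type} [Field k] {r : ℕ}
    (C : Config k r) (P : Pt k) (i j m : Fin r) (hij : i ≠ j) (hi : i ∈ C.through P) (hj : j ∈ C.through P)
    (hm : m ∉ C.through P) :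
    ∃ O : Subalgebra k (F k), IsCurve O ∧
      ∀ c, LinearIndependent k ![C.ℓ i, c] → UnitForm O c ∧ IsUnif O (ev (C.ℓ i) / ev c) := by
  obtain ⟨-, -, hev⟩ := hEv k
  have hbcd : LinearIndependent k ![C.ℓ i, C.ℓ j, C.ℓ m] := by
    rw [Fintype.linearIndependent_iff]
    intro g hg
    rw [Fin.sum_univ_three] at hg
    simp only [Matrix.cons_val_zero, Matrix.cons_val_one, Matrix.cons_val] at hg
    have h5 := congrArg (fun v => v ⬝ᵥ P.rep) hg
    have hi' : C.ℓ i ⬝ᵥ P.rep = 0 := hi
    have hj' : C.ℓ j ⬝ᵥ P.rep = 0 := hj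
    have hm' : C.ℓ m ⬝ᵥ P.rep ≠ 0 := hm
    simp only [add_dotProduct, smul_dotProduct, smul_eq_mul, zero_dotProduct, hi', hj', mul_zero, zero_add] at h5
    have h6 : g 2 = 0 := (mul_eq_zero.1 h5).resolve_right hm'
    rw [h6, zero_smul, add_zero] at hg
    have h7 := LinearIndependent.pair_iff.1 (C.indep i j hij) (g 0) (g 1) hg
    intro a
    fin_cases a
    · exact h7.1
    · exact h7.2
    · exact h6
  set b := C.ℓ i with hb
  set c := C.ℓ j with hc
  set d := C.ℓ m with hd
  have hcbd : LinearIndependent k ![c, b, d] := by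
    have h3 := hbcd.comp ![1, 0, 2] (by decide)
    have h4 : ![b, c, d] ∘ ![1, 0, 2] = ![c, b, d] := by
      funext i
      fin_cases i
      · rfl
      · rfl
      · rfl
    rwa [h4] at h3
  have hb0 : b ≠ 0 := hbcd.ne_zero 0
  obtain ⟨⟨O, hO⟩, hl⟩ := hLo k (ev b / ev c) (ev d / ev c) (hCo k c b d hcbd).1 (MvPolynomial.X 0)
    MvPolynomial.X_prime.irreducible
  obtain ⟨l1, l2, l3⟩ := hl O hO
  have hcm : cm (ev b / ev c) (ev d / ev c) (MvPolynomial.X 0) = ev b / ev c := by simp [cm]
  have hcu : IsCurve O := ⟨c, b, d, MvPolynomial.X 0, hcbd, hO⟩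
  refine ⟨O, hcu, ?_⟩
  rcases (hCu k O hcu).2.2.1 b hb0 with h8 | h8
  · exfalso
    apply l3.2.1
    rw [hcm, inv_div]
    exact h8.2 c
  · exact h8

end Pool.Agent.Lib.MP_4318ff_ag
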