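import Pool.Agent.Lib.MP_4318ff_ag.Spec.A4
import Pool.Agent.Lib.MP_4318ff_ag.A.Van

/-!
# MP_4318ff_ag, module Y/Pole: the order of one pencil term at an exceptional curve
-/

set_option autoImplicit false

namespace Pool.Agent.Lib.MP_4318ff_ag

open scoped LinearAlgebra.Projectivization

theorem y_pole (hEv : EvStmt) (hEx : ExcStmt) (hPow : PowStmt) (hTau : TauStmt) (hBas : BasStmt)
    {k : Type} [Field k] {r n : ℕ} (C : Config k r) (K : Type) [Field K] [Algebra (F k) K]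
    [Algebra k K] [IsScalarTower k (F k) K] (Q T P : Pt k) (O : Subalgebra k (F k)) (Δ : Derivation k K K)
    (b c : Fin 3 → k) (ρ : Fin r → k) (hn : 0 < n) (hroots : Roots K C n) (hQ : Q ∈ C.M) (hO : IsExc P O)
    (hreg : RegAt C n Q O Δ) (hρ : C.IsRel Q ρ) (hb : b ⬝ᵥ P.rep ≠ 0) (hc0 : c ≠ 0) (hc : c ⬝ᵥ P.rep = 0) :
    algebraMap (F k) K (ev c / ev b) *
    (∑ i, algebraMap k K (ρ i * (C.ℓ i ⬝ᵥ T.rep)) *
      (Δ (algebraMap (F k) K (ev (C.ℓ i))) / algebraMap (F k) K (ev (C.ℓ i)))) ^ n ∈ ic K O := by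
  classical
  obtain ⟨-, -, hev⟩ := hEv k
  obtain ⟨e1, e2, e3, e4⟩ := (hEx k P).2 O hO
  have halg : ∀ f ∈ O, algebraMap (F k) K f ∈ ic K O := fun f hf =>
    isIntegral_algebraMap (R := O) (A := K) (x := ⟨f, hf⟩)
  have hzz : ev c / ev b ∈ O := (e1 b hb).2 c
  -- the line `j0`
  obtain ⟨i, hi, j, hj, m, hm, hij, him, hjm⟩ := (hBas k r C).2.2.1 Q hQ
  have hj0 : ∃ j0 ∈ C.through Q, (Q = P ∨ j0 ∉ C.through P) := by
    by_cases hQP : Q = P
    · exact ⟨i, hi, Or.inl hQP⟩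
    · by_cases h1 : i ∈ C.through P
      · refine ⟨j, hj, Or.inr fun h2 => hQP ?_⟩
        exact (hBas k r C).1 i j Q P hij hi hj h1 h2
      · exact ⟨i, hi, Or.inr h1⟩
  obtain ⟨j0, hj0, hj0P⟩ := hj0
  have hne : ∀ i ∈ C.through Q, C.ℓ i ≠ 0 := by
    intro a _ h0
    by_cases h : a = i
    · exact (C.indep a j (by rw [h]; exact hij)).ne_zero 0 h0
    · exact (C.indep a i h).ne_zero 0 h0
  have hej0 : ev (C.ℓ j0) ≠ 0 := fun h => hne j0 hj0 ((hev _).1 h)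
  -- subtract the term `j0`
  have hsum0 : ∑ i, ρ i * (C.ℓ i ⬝ᵥ T.rep) = 0 := by
    have h0 := congrArg (fun v : Fin 3 → k => v ⬝ᵥ T.rep) hρ.2
    simp only [zero_dotProduct, sum_dotProduct, smul_dotProduct, smul_eq_mul] at h0
    exact h0
  have hrew : (∑ i, algebraMap k K (ρ i * (C.ℓ i ⬝ᵥ T.rep)) *
      (Δ (algebraMap (F k) K (ev (C.ℓ i))) / algebraMap (F k) K (ev (C.ℓ i)))) =
      ∑ i, algebraMap k K (ρ i * (C.ℓ i ⬝ᵥ T.rep)) *
      (Δ (algebraMap (F k) K (ev (C.ℓ i))) / algebraMap (F k) K (ev (C.ℓ i)) -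
        Δ (algebraMap (F k) K (ev (C.ℓ j0))) / algebraMap (F k) K (ev (C.ℓ j0))) := by
    simp only [mul_sub, Finset.sum_sub_distrib]
    rw [← Finset.sum_mul, ← map_sum, hsum0, map_zero, zero_mul, sub_zero]
  rw [hrew]
  apply van_sum hPow k K O n hn
  intro i _
  by_cases hi : i ∈ C.through Q
  · have hk : ∀ (t : k) (x : K), algebraMap (F k) K (ev c / ev b) * x ^ n ∈ ic K O →
        algebraMap (F k) K (ev c / ev b) * (algebraMap k K t * x) ^ n ∈ ic K O := by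
      intro t x hx
      rw [mul_pow, mul_left_comm]
      refine (ic K O).mul_mem ?_ hx
      rw [IsScalarTower.algebraMap_apply k (F k) K]
      exact (ic K O).pow_mem (halg _ (O.algebraMap_mem t)) n
    apply hk
    by_cases hiP : Q ≠ P ∧ i ∈ C.through P
    · -- the line `QP`
      have hj0P' : j0 ∉ C.through P := hj0P.resolve_left hiP.1
      have hlam : ev (C.ℓ i) / ev (C.ℓ j0) ∈ O := (e1 (C.ℓ j0) hj0P').2 (C.ℓ i)
      have h1 := (hTau k r n C K Q O Δ hn hroots hreg i hi j0 hj0 hlam).2.1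
      have hei : ev (C.ℓ i) ≠ 0 := fun h => hne i hi ((hev _).1 h)
      have h2 : ev c / ev b = (ev c / ev (C.ℓ i)) * (ev (C.ℓ j0) / ev b) * (ev (C.ℓ i) / ev (C.ℓ j0)) := by
        field_simp
      rw [h2, map_mul (algebraMap (F k) K) (ev c / ev (C.ℓ i) * (ev (C.ℓ j0) / ev b)), mul_assoc]
      refine (ic K O).mul_mem (halg _ (O.mul_mem (e2 (C.ℓ i) c (hne i hi) hiP.2 hc) ((e1 b hb).2 (C.ℓ j0)))) ?_
      exact h1
    · have hboth : ev (C.ℓ i) / ev (C.ℓ j0) ∈ O ∧ ev (C.ℓ j0) / ev (C.ℓ i) ∈ O := by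
        by_cases hQP : Q = P
        · subst hQP
          exact ⟨e2 (C.ℓ j0) (C.ℓ i) (hne j0 hj0) hj0 hi, e2 (C.ℓ i) (C.ℓ j0) (hne i hi) hi hj0⟩
        · have hiP' : i ∉ C.through P := fun h => hiP ⟨hQP, h⟩
          exact ⟨(e1 (C.ℓ j0) (hj0P.resolve_left hQP)).2 (C.ℓ i), (e1 (C.ℓ i) hiP').2 (C.ℓ j0)⟩
      have h1 := (hTau k r n C K Q O Δ hn hroots hreg i hi j0 hj0 hboth.1).1 hboth.2
      exact (ic K O).mul_mem (halg _ hzz) ((ic K O).pow_mem h1 n)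
  · rw [hρ.1 i hi, zero_mul, map_zero, zero_mul, zero_pow hn.ne', mul_zero]
    exact (ic K O).zero_mem

end Pool.Agent.Lib.MP_4318ff_ag
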