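import Pool.Agent.Lib.MP_4318ff_ag.Y.VanQ
import Pool.Agent.Lib.MP_4318ff_ag.All.L

/-!
# MP_4318ff_ag, module Y/Sol: the conclusion of the norm argument for one configuration and one `n`

`SolFor C n`: it holds if `r ≤ n + 1` (`solFor_of_le`) and for six lines and `n = 4` (`solFor_six`).
-/

set_option autoImplicit false

namespace Pool.Agent.Lib.MP_4318ff_ag

open scoped LinearAlgebra.Projectivization

/-- The conclusion of `VanStmt` for one configuration and one `n` (for Galois extensions; if a multiple point `P₀` is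
missing, the vector fields are assumed to be invariant under `NP K P₀`). -/
def SolFor {k : Type} [Field k] {r : ℕ} (C : Config k r) (n : ℕ) : Prop := ∀ (K : Type)
  [Field K] [Algebra (F k) K] [Algebra k K] [IsScalarTower k (F k) K] [FiniteDimensional (F k) K] [IsGalois (F k) K],
  Roots K C n → ∀ (P₀ : Pt k) (S : Finset (Pt k)), (∀ P ∈ S, P ∈ C.M) → (∀ P ∈ C.M, P ≠ P₀ → P ∈ S) →
  ∀ (D : Chart C → Chart C → Derivation k K K) (Δ : Pt k → Chart C → Derivation k K K),
  (∀ P ∈ S, ∀ u O, IsDiv C O → u.R ≤ O → RegAt C n P O (Δ P u)) →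
  (∀ P ∈ S, ∀ u v, EqOn P (D u v) (Δ P v - Δ P u)) →
  ((∀ P ∈ C.M, P ∈ S) ∨ ∀ P ∈ S, ∀ u, ∀ g ∈ NP K P₀, conjD g (Δ P u) = Δ P u) →
  ∀ T ∈ C.M, ∀ ρ : Pt k → Fin r → k, (∀ P, P ∉ S → ρ P = 0) → (∀ P ∈ S, C.IsRel P (ρ P)) →
  (∀ i, i ∉ C.through T → ∑ P ∈ S, ρ P i = 0) → ∀ u : Chart C,
  ∑ P ∈ S, ∑ i, (ρ P i * (C.ℓ i ⬝ᵥ T.rep)) •
    (Δ P u (algebraMap (F k) K (ev (C.ℓ i))) / algebraMap (F k) K (ev (C.ℓ i))) = 0

theorem solFor_of_le {k : Type} [Field k] [CharZero k] [IsAlgClosed k] {r n : ℕ} (C : Config k r) (hrn : r ≤ n + 1) :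
    SolFor C n := by
  classical
  intro K _ _ _ _ _ _ hroots P₀ S hS1 hS2 D Δ hreg hEq _ T hT ρ _ hrel hsum u
  have h1 := all_van k r n C K T hroots hT ((show ∀ m : ℕ, m + 3 ≤ r → m + 1 < n from fun m hm => by omega) _
    (greg_card C T hT)) D S Δ hS1 hreg hEq ρ hrel (fun i hi => hsum i hi) u
  rw [← h1]
  refine Finset.sum_congr rfl fun P _ => Finset.sum_congr rfl fun i _ => ?_
  rw [Algebra.smul_def]

/-- Six lines, `n = 4` (the complete quadrangle). -/
theorem solFor_six {k : Type} [Field k] [CharZero k] [IsAlgClosed k] (C : Config k 6) (hC : C.LinRigid) :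
    SolFor C 4 := by
  intro K _ _ _ _ _ _ hroots P₀ S hS1 hS2 D Δ hreg hEq hcase T hT ρ _ hrel hsum u
  have h1 := y_van C tEv tCoord tLoc tUnif all_curve all_exc tOrd all_hartA la_pnt all_const tPow tTau la_bas
    all_chartEx all_locCurve all_locExc tGlob all_fix K (all_twoL k 6 C hC le_rfl) (all_spnL k 6 C hC le_rfl).2 T hroots
    hT P₀ D S Δ hS1 hS2 hreg hEq hcase ρ hrel (fun i hi => hsum i hi) u
  rw [← h1]
  unfold gT
  refine Finset.sum_congr rfl fun P _ => Finset.sum_congr rfl fun i _ => ?_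
  rw [Algebra.smul_def]

/-- The numerical condition: `r ≤ n + 1` or `r = 6`. -/
theorem solFor_of_lin {k : Type} [Field k] [CharZero k] [IsAlgClosed k] {r n : ℕ} (C : Config k r) (hC : C.LinRigid)
    (hn : 4 ≤ n) (h : r ≤ n + 1 ∨ r = 6) : SolFor C n := by
  by_cases hrn : r ≤ n + 1
  · exact solFor_of_le C hrn
  · have hr := h.resolve_left hrn
    subst hr
    have hn4 : n = 4 := by omega
    subst hn4
    exact solFor_six C hC

theorem y_avg_eqOn {k : Type} [Field k] {K : Type} [Field K] [Algebra (F k) K] [Algebra k K]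
    [IsScalarTower k (F k) K] [FiniteDimensional (F k) K] (N : Subgroup (K ≃ₐ[F k] K)) (P : Pt k)
    (D D' : Derivation k K K) (h : EqOn P D D') : EqOn P (avgD N D) (avgD N D') := by
  classical
  have key : ∀ (D : Derivation k K K) (f : F k), avgD N D (algebraMap (F k) K f) =
      ((Finset.univ.filter (fun g : K ≃ₐ[F k] K => g ∈ N)).card : k)⁻¹ •
        ∑ g ∈ Finset.univ.filter (fun g : K ≃ₐ[F k] K => g ∈ N), g (D (algebraMap (F k) K f)) := by
    intro D f
    unfold avgD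
    rw [Derivation.smul_apply]
    congr 1
    rw [← Derivation.coeFnAddMonoidHom_apply, map_sum, Finset.sum_apply]
    refine Finset.sum_congr ?_ fun g _ => ?_
    · ext g
      simp
    · show g (D (g.symm (algebraMap (F k) K f))) = _
      rw [AlgEquiv.commutes]
  intro c c' hc hc'
  rw [key, key, h c c' hc hc']

end Pool.Agent.Lib.MP_4318ff_ag
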