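import Pool.Agent.Lib.MP_4318ff_ag.Y.Const
import Pool.Agent.Lib.MP_4318ff_ag.Y.Pole
import Pool.Agent.Lib.MP_4318ff_ag.Y.Comb

/-!
# MP_4318ff_ag, module Y/Step: complete quadrangle, `n = 4`: the global functions `g_T` are `4`-th roots of
`γ ∏_(T ∈ i) ℓ_i / ∏_(T ∉ i) ℓ_i`
-/

set_option autoImplicit false

namespace Pool.Agent.Lib.MP_4318ff_ag

open scoped LinearAlgebra.Projectivization

section step

variable {k : Type} [Field k] (C : Config k 6)

/-- the global function -/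
noncomputable def gT {r : ℕ} (C : Config k r) {K : Type} [Field K] [Algebra (F k) K] [Algebra k K] (S : Finset (Pt k))
    (Δ : Pt k → Derivation k K K) (ρ : Pt k → Fin r → k) (y : Fin 3 → k) : K :=
  ∑ P ∈ S, ∑ i, algebraMap k K (ρ P i * (C.ℓ i ⬝ᵥ y)) *
    (Δ P (algebraMap (F k) K (ev (C.ℓ i))) / algebraMap (F k) K (ev (C.ℓ i)))

theorem y_ne (hEv : EvStmt) (i : Fin 6) : ev (C.ℓ i) ≠ 0 := by
  intro h
  obtain ⟨j, hj⟩ : ∃ j : Fin 6, i ≠ j := by
    by_cases h : i = 0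
    · exact ⟨1, by rw [h]; decide⟩
    · exact ⟨0, h⟩
  exact (C.indep i j hj).ne_zero 0 (((hEv k).2.2 (C.ℓ i)).1 h)

open Classical in
/-- The orders of the lines at an exceptional curve. -/
theorem y_units (hEv : EvStmt) (hEx : ExcStmt) (P : Pt k) (O : Subalgebra k (F k)) (hO : IsExc P O) (b c : Fin 3 → k)
    (hb : b ⬝ᵥ P.rep ≠ 0) (hc0 : c ≠ 0) (hc : c ⬝ᵥ P.rep = 0) (i : Fin 6) :
    ev (C.ℓ i) / (if i ∈ thr C P then ev c else ev b) ∈ O ∧ (if i ∈ thr C P then ev c else ev b) / ev (C.ℓ i) ∈ O := by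
  obtain ⟨e1, e2, e3, e4⟩ := (hEx k P).2 O hO
  have hi0 : C.ℓ i ≠ 0 := fun h => y_ne C hEv i (by rw [h]; exact ((hEv k).2.2 0).2 rfl)
  by_cases hi : i ∈ thr C P
  · rw [if_pos hi]
    have hi' : C.ℓ i ⬝ᵥ P.rep = 0 := (mem_thr C P i).1 hi
    exact ⟨e2 c (C.ℓ i) hc0 hc hi', e2 (C.ℓ i) c hi0 hi' hc⟩
  · rw [if_neg hi]
    have hi' : C.ℓ i ⬝ᵥ P.rep ≠ 0 := fun h => hi ((mem_thr C P i).2 h)
    exact ⟨(e1 b hb).2 _, (e1 (C.ℓ i) hi').2 _⟩

open Classical in
theorem y_step (hEv : EvStmt) (hCo : CoordStmt) (hLo : LocStmt) (hU : UnifStmt) (hCu : CurveStmt) (hEx : ExcStmt)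
    (hOr : OrdStmt) (hHa : HartAStmt) (hPnt : PntStmt) (hConst : ConstStmt) (hPow : PowStmt) (hTau : TauStmt)
    (hBas : BasStmt) (hCh : ChartExStmt) (hLC : LocCurveStmt) (hLE : LocExcStmt) (hGlob : GlobStmt) [IsAlgClosed k]
    (K : Type) [Field K] [Algebra (F k) K] [Algebra k K] [IsScalarTower k (F k) K] [FiniteDimensional (F k) K]
    (h2 : ∀ i, ∃ P ∈ C.M, ∃ Q ∈ C.M, P ≠ Q ∧ i ∈ C.through P ∧ i ∈ C.through Q)
    (T : Pt k) (hR : Roots K C 4) (hT : T ∈ C.M)
    (D : Chart C → Chart C → Derivation k K K) (S : Finset (Pt k)) (Δ : Pt k → Chart C → Derivation k K K)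
    (hSM : ∀ P ∈ S, P ∈ C.M) (hReg : ∀ P ∈ S, ∀ u O, IsDiv C O → u.R ≤ O → RegAt C 4 P O (Δ P u))
    (hEq : ∀ P ∈ S, ∀ u v, EqOn P (D u v) (Δ P v - Δ P u))
    (ρ : Pt k → Fin 6 → k) (hρ : ∀ P ∈ S, C.IsRel P (ρ P)) (hsum : ∀ i, C.ℓ i ⬝ᵥ T.rep ≠ 0 → ∑ P ∈ S, ρ P i = 0)
    (u : Chart C) :
    ∃ γ : k, gT C S (fun P => Δ P u) ρ T.rep ^ 4 * algebraMap (F k) K (∏ i ∈ Finset.univ \ thr C T, ev (C.ℓ i)) =
      algebraMap k K γ * algebraMap (F k) K (∏ i ∈ thr C T, ev (C.ℓ i)) := by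
  have hne := y_ne C hEv
  have hneK : ∀ i, algebraMap (F k) K (ev (C.ℓ i)) ≠ 0 := fun i => (map_ne_zero _).2 (hne i)
  have halg : ∀ O : Subalgebra k (F k), ∀ f ∈ O, algebraMap (F k) K f ∈ ic K O := fun O f hf =>
    isIntegral_algebraMap (R := O) (A := K) (x := ⟨f, hf⟩)
  have hA3 : (thr C T).card = 3 := y_comb1 C hBas h2 T hT
  have hB3 : (Finset.univ \ thr C T).card = 3 := by
    rw [Finset.card_sdiff_of_subset (Finset.subset_univ _), Finset.card_univ, Fintype.card_fin, hA3]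
  have hBfil : Finset.univ.filter (fun i => C.ℓ i ⬝ᵥ T.rep ≠ 0) = Finset.univ \ thr C T := by
    ext i
    rw [Finset.mem_filter, Finset.mem_sdiff, mem_thr]
    rfl
  set A := thr C T with hA
  set B := Finset.univ \ thr C T with hB
  -- the coefficients
  have hs1 : ∀ P ∈ S, ∀ i, i ∉ C.through P → ρ P i * (C.ℓ i ⬝ᵥ T.rep) = 0 := by
    intro P hP i hi
    rw [(hρ P hP).1 i hi, zero_mul]
  have hs2 : ∀ P ∈ S, ∑ i, ρ P i * (C.ℓ i ⬝ᵥ T.rep) = 0 := by
    intro P hP
    have h0 := congrArg (fun v : Fin 3 → k => v ⬝ᵥ T.rep) (hρ P hP).2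
    simp only [zero_dotProduct, sum_dotProduct, smul_dotProduct, smul_eq_mul] at h0
    exact h0
  have hs3 : ∀ i, ∑ P ∈ S, ρ P i * (C.ℓ i ⬝ᵥ T.rep) = 0 := by
    intro i
    by_cases hi : C.ℓ i ⬝ᵥ T.rep = 0
    · exact Finset.sum_eq_zero fun P _ => by rw [hi, mul_zero]
    · rw [← Finset.sum_mul, hsum i hi, zero_mul]
  -- independence of the chart
  have hind : ∀ v : Chart C, gT C S (fun P => Δ P u) ρ T.rep = gT C S (fun P => Δ P v) ρ T.rep := by
    intro v
    exact hGlob k 6 C K S (D u v) (fun P => Δ P u) (fun P => Δ P v)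
      (fun P i => ρ P i * (C.ℓ i ⬝ᵥ T.rep)) (fun P hP => hEq P hP u v) hs1 hs2 hs3
  -- the function `G`
  have hPA : (∏ i ∈ A, ev (C.ℓ i)) ≠ 0 := Finset.prod_ne_zero_iff.2 fun i _ => hne i
  have hPB : (∏ i ∈ B, ev (C.ℓ i)) ≠ 0 := Finset.prod_ne_zero_iff.2 fun i _ => hne i
  set g := gT C S (fun P => Δ P u) ρ T.rep with hg
  obtain ⟨γ, hγ⟩ := y_constK hEv hCo hLo hU hCu hEx hOr hHa hPnt hConst K T A C.ℓ
    (fun i _ h => hne i (by rw [h]; exact ((hEv k).2.2 0).2 rfl))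
    (fun i hi => (mem_thr C T i).1 hi)
    (algebraMap (F k) K ((∏ i ∈ B, ev (C.ℓ i)) / (∏ i ∈ A, ev (C.ℓ i))) * g ^ 4) (by
      intro O hO b hb
      have heb : ev b ≠ 0 := fun h => hb.1 (((hEv k).2.2 b).1 h)
      have h3 : algebraMap (F k) K (∏ i ∈ A, ev (C.ℓ i) / ev b) *
          (algebraMap (F k) K ((∏ i ∈ B, ev (C.ℓ i)) / (∏ i ∈ A, ev (C.ℓ i))) * g ^ 4) =
          algebraMap (F k) K (∏ i ∈ Finset.univ.filter (fun i => C.ℓ i ⬝ᵥ T.rep ≠ 0), ev (C.ℓ i) / ev b) * g ^ 4 := by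
        rw [hBfil, ← mul_assoc, ← map_mul]
        congr 2
        rw [Finset.prod_div_distrib, Finset.prod_div_distrib, Finset.prod_const, Finset.prod_const, hA3, hB3]
        field_simp
      rw [h3]
      obtain ⟨v, hv⟩ := hCh k 6 C O (Or.inl hO)
      rw [hind v]
      unfold gT
      apply van_sum hPow k K O 4 (by norm_num)
      intro P hP
      exact hLC k 6 4 C K P T O (Δ P v) b (ρ P) (by norm_num) hR (hSM P hP) hO hb
        (hReg P hP v O (Or.inl hO) hv) (hρ P hP))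
    (by
      intro O hO
      obtain ⟨c, d, hcd, hc, hd⟩ := (hPnt k).2.2.2.2 T
      obtain ⟨b, hb⟩ : ∃ b : Fin 3 → k, b ⬝ᵥ T.rep ≠ 0 := by
        by_contra hno
        push Not at hno
        apply T.rep_nonzero
        ext a
        have := hno (Pi.single a 1)
        rwa [single_dotProduct, one_mul] at this
      have hc0 : c ≠ 0 := hcd.ne_zero 0
      have heb : ev b ≠ 0 := fun h => by
        have := ((hEv k).2.2 b).1 h
        rw [this, zero_dotProduct] at hb
        exact hb rfl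
      have hec : ev c ≠ 0 := fun h => hc0 (((hEv k).2.2 c).1 h)
      have hu := y_units C hEv hEx T O hO b c hb hc0 hc
      have h3 : algebraMap (F k) K ((∏ i ∈ B, ev (C.ℓ i)) / (∏ i ∈ A, ev (C.ℓ i))) * g ^ 4 =
          algebraMap (F k) K ((∏ i ∈ B, ev (C.ℓ i) / (if i ∈ thr C T then ev c else ev b)) *
            (∏ i ∈ A, (if i ∈ thr C T then ev c else ev b) / ev (C.ℓ i))) *
          (algebraMap (F k) K ((ev c / ev b)⁻¹ ^ (4 - 1)) * g ^ 4) := by
        rw [← mul_assoc, ← map_mul]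
        congr 2
        rw [Finset.prod_div_distrib, Finset.prod_div_distrib]
        rw [Finset.prod_congr rfl (g := fun _ => ev b) (fun i hi => if_neg (Finset.mem_sdiff.1 hi).2)]
        rw [Finset.prod_congr (s₁ := A) rfl (g := fun _ => ev c) (fun i hi => if_pos hi)]
        rw [Finset.prod_const, Finset.prod_const, hA3, hB3, show 4 - 1 = 3 from rfl]
        field_simp
      rw [h3]
      refine (ic K O).mul_mem (halg O _ (O.mul_mem (Subalgebra.prod_mem O fun i _ => (hu i).1)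
        (Subalgebra.prod_mem O fun i _ => (hu i).2))) ?_
      obtain ⟨v, hv⟩ := hCh k 6 C O (Or.inr ⟨T, hT, hO⟩)
      rw [hind v]
      unfold gT
      apply van_sum hPow k K O 4 (by norm_num)
      intro P hP
      by_cases hPT : P = T
      · subst hPT
        have h0 : ∑ i, algebraMap k K (ρ P i * (C.ℓ i ⬝ᵥ P.rep)) *
            (Δ P v (algebraMap (F k) K (ev (C.ℓ i))) / algebraMap (F k) K (ev (C.ℓ i))) = 0 := by
          apply Finset.sum_eq_zero
          intro i _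
          have : ρ P i * (C.ℓ i ⬝ᵥ P.rep) = 0 := by
            by_cases hi : i ∈ C.through P
            · have hi' : C.ℓ i ⬝ᵥ P.rep = 0 := hi
              rw [hi', mul_zero]
            · rw [(hρ P hP).1 i hi, zero_mul]
          rw [this, map_zero, zero_mul]
        rw [h0, zero_pow (by norm_num), mul_zero]
        exact (ic K O).zero_mem
      · exact hLE k 6 4 C K P T O (Δ P v) b c (ρ P) (by norm_num) hR (hSM P hP) hPT hO
          (hReg P hP v O (Or.inr ⟨T, hT, hO⟩) hv) (hρ P hP) hb hc0 hc)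
    (by
      intro i hi
      obtain ⟨P, hP, hPT, hiP⟩ := y_other C h2 i T
      refine ⟨P, hPT, hiP, fun O hO => ?_⟩
      obtain ⟨c, d, hcd, hc, hd⟩ := (hPnt k).2.2.2.2 P
      obtain ⟨b, hb⟩ : ∃ b : Fin 3 → k, b ⬝ᵥ P.rep ≠ 0 := by
        by_contra hno
        push Not at hno
        apply P.rep_nonzero
        ext a
        have := hno (Pi.single a 1)
        rwa [single_dotProduct, one_mul] at this
      have hc0 : c ≠ 0 := hcd.ne_zero 0
      have heb : ev b ≠ 0 := fun h => by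
        have := ((hEv k).2.2 b).1 h
        rw [this, zero_dotProduct] at hb
        exact hb rfl
      have hec : ev c ≠ 0 := fun h => hc0 (((hEv k).2.2 c).1 h)
      have hu := y_units C hEv hEx P O hO b c hb hc0 hc
      have hAP : (A.filter (fun i => i ∈ thr C P)).card = 1 := by
        have h4 := y_comb2 C hBas h2 T hT P hP hPT.symm
        rw [← Finset.filter_mem_eq_inter] at h4
        exact h4
      have hAP' : (A.filter (fun i => i ∉ thr C P)).card = 2 := by
        have h4 := Finset.card_filter_add_card_filter_not (s := A) (fun i => i ∈ thr C P)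
        omega
      have hPt : (thr C P).card = 3 := y_comb1 C hBas h2 P hP
      have hBP : (B.filter (fun i => i ∈ thr C P)).card = 2 := by
        have h4 : B.filter (fun i => i ∈ thr C P) = thr C P \ (A.filter (fun i => i ∈ thr C P)) := by
          ext j
          simp only [hB, Finset.mem_filter, Finset.mem_sdiff, Finset.mem_univ, true_and, ← hA]
          tauto
        rw [h4, Finset.card_sdiff_of_subset (fun j hj => (Finset.mem_filter.1 hj).2), hAP, hPt]
      have hBP' : (B.filter (fun i => i ∉ thr C P)).card = 1 := by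
        have h4 := Finset.card_filter_add_card_filter_not (s := B) (fun i => i ∈ thr C P)
        omega
      have h3 : algebraMap (F k) K ((∏ i ∈ B, ev (C.ℓ i)) / (∏ i ∈ A, ev (C.ℓ i))) * g ^ 4 =
          algebraMap (F k) K ((∏ i ∈ B, ev (C.ℓ i) / (if i ∈ thr C P then ev c else ev b)) *
            (∏ i ∈ A, (if i ∈ thr C P then ev c else ev b) / ev (C.ℓ i))) *
          (algebraMap (F k) K (ev c / ev b) * g ^ 4) := by
        rw [← mul_assoc, ← map_mul]
        congr 2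
        rw [Finset.prod_div_distrib, Finset.prod_div_distrib, Finset.prod_ite, Finset.prod_ite, Finset.prod_const,
          Finset.prod_const, Finset.prod_const, Finset.prod_const, hAP, hAP', hBP, hBP']
        field_simp
      rw [h3]
      refine (ic K O).mul_mem (halg O _ (O.mul_mem (Subalgebra.prod_mem O fun i _ => (hu i).1)
        (Subalgebra.prod_mem O fun i _ => (hu i).2))) ?_
      obtain ⟨v, hv⟩ := hCh k 6 C O (Or.inr ⟨P, hP, hO⟩)
      rw [hind v]
      unfold gT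
      apply van_sum hPow k K O 4 (by norm_num)
      intro Q hQ
      exact y_pole hEv hEx hPow hTau hBas C K Q T P O (Δ Q v) b c (ρ Q) (by norm_num) hR (hSM Q hQ) hO
        (hReg Q hQ v O (Or.inr ⟨P, hP, hO⟩) hv) (hρ Q hQ) hb hc0 hc)
  refine ⟨γ, ?_⟩
  rw [← hγ, map_div₀]
  have h5 : algebraMap (F k) K (∏ i ∈ A, ev (C.ℓ i)) ≠ 0 := (map_ne_zero _).2 hPA
  field_simp

end step

end Pool.Agent.Lib.MP_4318ff_ag
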