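import Pool.Agent.Lib.MP_4318ff_ag.Y.Step
import Pool.Agent.Lib.MP_4318ff_ag.Y.Indep

/-!
# MP_4318ff_ag, module Y/Van4: the conclusion of `VanStmt` for the complete quadrangle and `n = 4`
-/

set_option autoImplicit false

namespace Pool.Agent.Lib.MP_4318ff_ag

open scoped LinearAlgebra.Projectivization

section van4

variable {k : Type} [Field k]

/-- `f` has order `e` at `O` (with uniformiser `π`). -/
def HasOrd (O : Subalgebra k (F k)) (π : F k) (e : ℤ) (f : F k) : Prop :=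
  ∃ u : F k, u ≠ 0 ∧ u ∈ O ∧ u⁻¹ ∈ O ∧ f = π ^ e * u

theorem HasOrd.mul {O : Subalgebra k (F k)} {π : F k} (hπ : π ≠ 0) {e e' : ℤ} {f f' : F k} (h : HasOrd O π e f)
    (h' : HasOrd O π e' f') : HasOrd O π (e + e') (f * f') := by
  obtain ⟨u, hu0, hu, hui, rfl⟩ := h
  obtain ⟨v, hv0, hv, hvi, rfl⟩ := h'
  refine ⟨u * v, mul_ne_zero hu0 hv0, O.mul_mem hu hv, ?_, ?_⟩
  · rw [mul_inv]
    exact O.mul_mem hui hvi
  · rw [zpow_add₀ hπ]
    ring

theorem HasOrd.inv {O : Subalgebra k (F k)} {π : F k} {e : ℤ} {f : F k} (h : HasOrd O π e f) :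
    HasOrd O π (-e) f⁻¹ := by
  obtain ⟨u, hu0, hu, hui, rfl⟩ := h
  refine ⟨u⁻¹, inv_ne_zero hu0, hui, by rwa [inv_inv], ?_⟩
  rw [mul_inv, zpow_neg]

theorem HasOrd.one (O : Subalgebra k (F k)) (π : F k) : HasOrd O π 0 1 :=
  ⟨1, one_ne_zero, O.one_mem, by rw [inv_one]; exact O.one_mem, by simp⟩

theorem HasOrd.const (O : Subalgebra k (F k)) (π : F k) (t : k) (ht : t ≠ 0) : HasOrd O π 0 (algebraMap k (F k) t) := by
  refine ⟨algebraMap k (F k) t, ?_, O.algebraMap_mem t, ?_, by simp⟩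
  · exact (map_ne_zero _).2 ht
  · rw [← map_inv₀]
    exact O.algebraMap_mem _

theorem HasOrd.prod {O : Subalgebra k (F k)} {π : F k} (hπ : π ≠ 0) {ι : Type} (s : Finset ι) (e : ι → ℤ) (f : ι → F k)
    (h : ∀ i ∈ s, HasOrd O π (e i) (f i)) : HasOrd O π (∑ i ∈ s, e i) (∏ i ∈ s, f i) := by
  classical
  induction s using Finset.induction_on with
  | empty => simpa using HasOrd.one O π
  | insert a s ha ih =>
    rw [Finset.sum_insert ha, Finset.prod_insert ha]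
    exact (h a (Finset.mem_insert_self a s)).mul hπ (ih fun i hi => h i (Finset.mem_insert_of_mem hi))

theorem HasOrd.pow {O : Subalgebra k (F k)} {π : F k} (hπ : π ≠ 0) {e : ℤ} {f : F k} (h : HasOrd O π e f) (n : ℕ) :
    HasOrd O π (n * e) (f ^ n) := by
  induction n with
  | zero => simpa using HasOrd.one O π
  | succ n ih =>
    rw [pow_succ]
    have h1 := ih.mul hπ h
    convert h1 using 1
    push_cast
    ring

theorem HasOrd.uniq (hU : UnifStmt) {O : Subalgebra k (F k)} {π : F k} (hπ : IsUnif O π) {e e' : ℤ} {f : F k}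
    (h : HasOrd O π e f) (h' : HasOrd O π e' f) : e = e' := by
  have hπ0 : π ≠ 0 := by
    intro h0
    apply hπ.2.1
    rw [h0, inv_zero]
    exact O.zero_mem
  obtain ⟨-, -, -, h4⟩ := hU k O π hπ
  have hf0 : f ≠ 0 := by
    obtain ⟨u, hu0, -, -, hf⟩ := h
    rw [hf]
    exact mul_ne_zero (zpow_ne_zero _ hπ0) hu0
  have h5 := h.mul hπ0 h'.inv
  rw [mul_inv_cancel₀ hf0] at h5
  have h6 := h'.mul hπ0 h.inv
  rw [mul_inv_cancel₀ hf0] at h6
  have key : ∀ e : ℤ, HasOrd O π e 1 → 0 ≤ e := by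
    rintro e ⟨u, hu0, hu, hui, h1⟩
    exact h4 e u hu0 hu hui (by rw [← h1]; exact O.one_mem)
  have h7 := key _ h5
  have h8 := key _ h6
  omega

/-- `f = π ^ 2 * unit` is not a fourth power: `f ^ 4` cannot have order `2`. -/
theorem HasOrd.not_two (hU : UnifStmt) {O : Subalgebra k (F k)} {π : F k} (hπ : IsUnif O π) {f : F k} (hf : f ≠ 0)
    (h : HasOrd O π 2 (f ^ 4)) : False := by
  have hπ0 : π ≠ 0 := by
    intro h0
    apply hπ.2.1
    rw [h0, inv_zero]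
    exact O.zero_mem
  obtain ⟨e, u, hu, hui, hfu⟩ := hπ.2.2 f hf
  have hu0 : u ≠ 0 := by
    intro h0
    rw [h0, mul_zero] at hfu
    exact hf hfu
  have h1 : HasOrd O π e f := ⟨u, hu0, hu, hui, hfu⟩
  have h2 := HasOrd.uniq hU hπ h (h1.pow hπ0 4)
  push_cast at h2
  omega

variable (C : Config k 6)

theorem gT_sum {r : ℕ} (C : Config k r) {K : Type} [Field K] [Algebra (F k) K] [Algebra k K] (S : Finset (Pt k))
    (Δ : Pt k → Derivation k K K) (ρ : Pt k → Fin r → k) {ι : Type} (s : Finset ι) (c : ι → k) (y : ι → Fin 3 → k) :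
    gT C S Δ ρ (∑ q ∈ s, c q • y q) = ∑ q ∈ s, algebraMap k K (c q) * gT C S Δ ρ (y q) := by
  unfold gT
  simp only [Finset.mul_sum]
  rw [Finset.sum_comm (s := s)]
  refine Finset.sum_congr rfl fun P _ => ?_
  rw [Finset.sum_comm (s := s)]
  refine Finset.sum_congr rfl fun i _ => ?_
  rw [dotProduct_sum, Finset.mul_sum, map_sum, Finset.sum_mul]
  refine Finset.sum_congr rfl fun q _ => ?_
  rw [dotProduct_smul, smul_eq_mul, mul_left_comm, map_mul, mul_assoc]

/-- Quotients of the `4`-th roots are not in `F`. -/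
theorem y_ratio (hEv : EvStmt) (hCo : CoordStmt) (hLo : LocStmt) (hU : UnifStmt) (hCu : CurveStmt) (hBas : BasStmt)
    {K : Type} [Field K] [Algebra (F k) K] [Algebra k K] [IsScalarTower k (F k) K]
    (h2 : ∀ i, ∃ P ∈ C.M, ∃ Q ∈ C.M, P ≠ Q ∧ i ∈ C.through P ∧ i ∈ C.through Q)
    (P Q : Pt k) (hP : P ∈ C.M) (hQ : Q ∈ C.M) (hPQ : P ≠ Q) (x y : K) (hx : x ≠ 0) (hy : y ≠ 0) (γ δ : k)
    (hxγ : x ^ 4 * algebraMap (F k) K (∏ i ∈ Finset.univ \ thr C P, ev (C.ℓ i)) =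
      algebraMap k K γ * algebraMap (F k) K (∏ i ∈ thr C P, ev (C.ℓ i)))
    (hyδ : y ^ 4 * algebraMap (F k) K (∏ i ∈ Finset.univ \ thr C Q, ev (C.ℓ i)) =
      algebraMap k K δ * algebraMap (F k) K (∏ i ∈ thr C Q, ev (C.ℓ i)))
    (f : F k) : x ≠ algebraMap (F k) K f * y := by
  classical
  intro hxf
  have hne := y_ne C hEv
  have hprod : ∀ X : Finset (Fin 6), (∏ i ∈ X, ev (C.ℓ i)) ≠ 0 := fun X => Finset.prod_ne_zero_iff.2 fun i _ => hne i
  have hprodK : ∀ X : Finset (Fin 6), algebraMap (F k) K (∏ i ∈ X, ev (C.ℓ i)) ≠ 0 :=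
    fun X => (map_ne_zero _).2 (hprod X)
  have hγ : γ ≠ 0 := by
    intro h
    rw [h, map_zero, zero_mul] at hxγ
    exact mul_ne_zero (pow_ne_zero 4 hx) (hprodK _) hxγ
  have hδ : δ ≠ 0 := by
    intro h
    rw [h, map_zero, zero_mul] at hyδ
    exact mul_ne_zero (pow_ne_zero 4 hy) (hprodK _) hyδ
  have hf0 : f ≠ 0 := by
    intro h
    rw [h, map_zero, zero_mul] at hxf
    exact hx hxf
  -- the identity in `F`
  have hF : f ^ 4 = algebraMap k (F k) (γ * δ⁻¹) * ((∏ i ∈ thr C P, ev (C.ℓ i)) * (∏ i ∈ Finset.univ \ thr C Q, ev (C.ℓ i)) *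
      ((∏ i ∈ Finset.univ \ thr C P, ev (C.ℓ i)) * (∏ i ∈ thr C Q, ev (C.ℓ i)))⁻¹) := by
    apply (algebraMap (F k) K).injective
    simp only [map_mul (algebraMap (F k) K), map_inv₀ (algebraMap (F k) K), map_pow (algebraMap (F k) K),
      ← IsScalarTower.algebraMap_apply k (F k) K, map_mul (algebraMap k K), map_inv₀ (algebraMap k K)]
    have hδK : algebraMap k K δ ≠ 0 := (map_ne_zero _).2 hδ
    have h3 : algebraMap (F k) K f ^ 4 * (y ^ 4 * algebraMap (F k) K (∏ i ∈ Finset.univ \ thr C P, ev (C.ℓ i))) =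
        algebraMap k K γ * algebraMap (F k) K (∏ i ∈ thr C P, ev (C.ℓ i)) := by
      rw [← hxγ, hxf]
      ring
    have e1 := hprodK (thr C P)
    have e2 := hprodK (thr C Q)
    have e3 := hprodK (Finset.univ \ thr C P)
    have e4 := hprodK (Finset.univ \ thr C Q)
    have e5 := pow_ne_zero 4 hy
    have h4 : algebraMap (F k) K f ^ 4 = algebraMap k K γ * algebraMap (F k) K (∏ i ∈ thr C P, ev (C.ℓ i)) /
        (y ^ 4 * algebraMap (F k) K (∏ i ∈ Finset.univ \ thr C P, ev (C.ℓ i))) := by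
      rw [eq_div_iff (mul_ne_zero e5 e3)]
      exact h3
    have h5 : y ^ 4 = algebraMap k K δ * algebraMap (F k) K (∏ i ∈ thr C Q, ev (C.ℓ i)) /
        algebraMap (F k) K (∏ i ∈ Finset.univ \ thr C Q, ev (C.ℓ i)) := by
      rw [eq_div_iff e4]
      exact hyδ
    rw [h4, h5]
    field_simp
  -- a line through `P` and not through `Q`
  have hcP := y_comb1 C hBas h2 P hP
  have hcap := y_comb2 C hBas h2 P hP Q hQ hPQ
  have hdiff : (thr C P \ thr C Q).card = 2 := by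
    have := Finset.card_sdiff_add_card_inter (thr C P) (thr C Q)
    omega
  obtain ⟨i, hi⟩ := Finset.card_pos.1 (show 0 < (thr C P \ thr C Q).card by omega)
  rw [Finset.mem_sdiff] at hi
  obtain ⟨j, hj, hij⟩ : ∃ j ∈ thr C P, i ≠ j := by
    obtain ⟨a, ha, b, hb, hab⟩ := Finset.one_lt_card.1 (show 1 < (thr C P).card by omega)
    by_cases h : i = a
    · exact ⟨b, hb, by rw [h]; exact hab⟩
    · exact ⟨a, ha, h⟩
  obtain ⟨m, hm⟩ := (hBas k 6 C).2.2.2.2.2 P
  obtain ⟨O, hO, hOc⟩ := y_line hEv hCo hLo hCu C P i j m hij ((mem_thr C P i).1 hi.1) ((mem_thr C P j).1 hj) hm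
  obtain ⟨hbU, hπ⟩ := hOc (C.ℓ j) (C.indep i j hij)
  set π := ev (C.ℓ i) / ev (C.ℓ j) with hπdef
  have hπ0 : π ≠ 0 := div_ne_zero (hne i) (hne j)
  -- the orders of the lines
  have hord : ∀ a, HasOrd O π (if a = i then 1 else 0) (ev (C.ℓ a) / ev (C.ℓ j)) := by
    intro a
    by_cases ha : a = i
    · rw [if_pos ha, ha]
      exact ⟨1, one_ne_zero, O.one_mem, by rw [inv_one]; exact O.one_mem, by rw [zpow_one, mul_one]⟩
    · rw [if_neg ha]
      obtain ⟨haU, -⟩ := hOc (C.ℓ a) (C.indep i a (Ne.symm ha))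
      refine ⟨ev (C.ℓ a) / ev (C.ℓ j), div_ne_zero (hne a) (hne j), hbU.2 _, ?_, by rw [zpow_zero, one_mul]⟩
      rw [inv_div]
      exact haU.2 _
  have hordp : ∀ X : Finset (Fin 6), HasOrd O π (if i ∈ X then 1 else 0) (∏ a ∈ X, (ev (C.ℓ a) / ev (C.ℓ j))) := by
    intro X
    have h := HasOrd.prod hπ0 X _ _ (fun a _ => hord a)
    rwa [Finset.sum_ite_eq'] at h
  have hA3 : (thr C P).card = 3 := hcP
  have hA3' : (thr C Q).card = 3 := y_comb1 C hBas h2 Q hQ
  have hB3 : (Finset.univ \ thr C P).card = 3 := by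
    rw [Finset.card_sdiff_of_subset (Finset.subset_univ _), Finset.card_univ, Fintype.card_fin, hA3]
  have hB3' : (Finset.univ \ thr C Q).card = 3 := by
    rw [Finset.card_sdiff_of_subset (Finset.subset_univ _), Finset.card_univ, Fintype.card_fin, hA3']
  have hF2 : f ^ 4 = algebraMap k (F k) (γ * δ⁻¹) * ((∏ a ∈ thr C P, (ev (C.ℓ a) / ev (C.ℓ j))) *
      (∏ a ∈ Finset.univ \ thr C Q, (ev (C.ℓ a) / ev (C.ℓ j))) *
      ((∏ a ∈ Finset.univ \ thr C P, (ev (C.ℓ a) / ev (C.ℓ j))) * (∏ a ∈ thr C Q, (ev (C.ℓ a) / ev (C.ℓ j))))⁻¹) := by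
    rw [hF]
    congr 1
    rw [Finset.prod_div_distrib, Finset.prod_div_distrib, Finset.prod_div_distrib, Finset.prod_div_distrib,
      Finset.prod_const, Finset.prod_const, Finset.prod_const, Finset.prod_const, hA3, hA3', hB3, hB3']
    have e1 := hprod (thr C P)
    have e2 := hprod (thr C Q)
    have e3 := hprod (Finset.univ \ thr C P)
    have e4 := hprod (Finset.univ \ thr C Q)
    have e5 := hne j
    field_simp
  have h1 := hordp (thr C P)
  have h3 := hordp (Finset.univ \ thr C Q)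
  have h4 := hordp (Finset.univ \ thr C P)
  have h5 := hordp (thr C Q)
  rw [if_pos hi.1] at h1
  rw [if_pos (Finset.mem_sdiff.2 ⟨Finset.mem_univ i, hi.2⟩)] at h3
  rw [if_neg (fun h => (Finset.mem_sdiff.1 h).2 hi.1)] at h4
  rw [if_neg hi.2] at h5
  have h6 := (HasOrd.const O π (γ * δ⁻¹) (mul_ne_zero hγ (inv_ne_zero hδ))).mul hπ0
    ((h1.mul hπ0 h3).mul hπ0 (h4.mul hπ0 h5).inv)
  rw [← hF2] at h6
  exact HasOrd.not_two hU hπ hf0 (by simpa using h6)

end van4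

end Pool.Agent.Lib.MP_4318ff_ag
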