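import Pool.Agent.Lib.MP_4318ff_ag.Y.Van4

/-!
# MP_4318ff_ag, module Y/VanQ: complete quadrangle, `n = 4`, end of the proof
-/

set_option autoImplicit false

namespace Pool.Agent.Lib.MP_4318ff_ag

open scoped LinearAlgebra.Projectivization

section vanq

variable {k : Type} [Field k] (C : Config k 6)

/-- The pencil `T` does not contribute to the value at `T`. -/
theorem gT_term_zero {r : ℕ} (C : Config k r) {K : Type} [Field K] [Algebra (F k) K] [Algebra k K]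
    (Δ : Derivation k K K) (ρ : Fin r → k) (T : Pt k) (hρ : ∀ i, i ∉ C.through T → ρ i = 0) :
    ∑ i, algebraMap k K (ρ i * (C.ℓ i ⬝ᵥ T.rep)) *
      (Δ (algebraMap (F k) K (ev (C.ℓ i))) / algebraMap (F k) K (ev (C.ℓ i))) = 0 := by
  refine Finset.sum_eq_zero fun i _ => ?_
  by_cases hi : i ∈ C.through T
  · have hi' : C.ℓ i ⬝ᵥ T.rep = 0 := hi
    rw [hi', mul_zero, map_zero, zero_mul]
  · rw [hρ i hi, zero_mul, map_zero, zero_mul]

/-- Case 1: all multiple points are in `S`. -/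
theorem y_case1 (hEv : EvStmt) (hCo : CoordStmt) (hLo : LocStmt) (hU : UnifStmt) (hCu : CurveStmt) (hEx : ExcStmt)
    (hOr : OrdStmt) (hHa : HartAStmt) (hPnt : PntStmt) (hConst : ConstStmt) (hPow : PowStmt) (hTau : TauStmt)
    (hBas : BasStmt) (hCh : ChartExStmt) (hLC : LocCurveStmt) (hLE : LocExcStmt) (hGlob : GlobStmt) [IsAlgClosed k]
    (K : Type) [Field K] [Algebra (F k) K] [Algebra k K] [IsScalarTower k (F k) K] [FiniteDimensional (F k) K]
    [IsGalois (F k) K]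
    (h2 : ∀ i, ∃ P ∈ C.M, ∃ Q ∈ C.M, P ≠ Q ∧ i ∈ C.through P ∧ i ∈ C.through Q)
    (hspn : ∀ P₀ : Pt k, Submodule.span k {x : Fin 3 → k | ∃ P ∈ C.M, P ≠ P₀ ∧ x = P.rep} = ⊤)
    (T : Pt k) (hR : Roots K C 4) (hT : T ∈ C.M)
    (D : Chart C → Chart C → Derivation k K K) (S : Finset (Pt k)) (Δ : Pt k → Chart C → Derivation k K K)
    (hSM : ∀ P ∈ S, P ∈ C.M) (hMS : ∀ P ∈ C.M, P ∈ S)
    (hReg : ∀ P ∈ S, ∀ u O, IsDiv C O → u.R ≤ O → RegAt C 4 P O (Δ P u))
    (hEq : ∀ P ∈ S, ∀ u v, EqOn P (D u v) (Δ P v - Δ P u))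
    (ρ : Pt k → Fin 6 → k) (hρ : ∀ P ∈ S, C.IsRel P (ρ P)) (hsum : ∀ i, C.ℓ i ⬝ᵥ T.rep ≠ 0 → ∑ P ∈ S, ρ P i = 0)
    (u : Chart C) : gT C S (fun P => Δ P u) ρ T.rep = 0 := by
  classical
  have hTS : T ∈ S := hMS T hT
  -- the corrected relations
  set ρ' : Pt k → Fin 6 → k := fun P i => if P = T then -∑ Q ∈ S.erase T, ρ Q i else ρ P i with hρ'
  have hρT : ∀ i, i ∉ C.through T → ρ T i = 0 := (hρ T hTS).1
  have hsplit : ∀ i, ∑ P ∈ S, ρ P i = ρ T i + ∑ Q ∈ S.erase T, ρ Q i := fun i => (Finset.add_sum_erase S _ hTS).symm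
  have hrel' : ∀ P ∈ S, C.IsRel P (ρ' P) := by
    intro P hP
    by_cases hPT : P = T
    · subst hPT
      constructor
      · intro i hi
        have h3 := hsum i hi
        rw [hsplit i, hρT i hi, zero_add] at h3
        simp only [hρ', if_true, h3, neg_zero]
      · simp only [hρ', if_true, neg_smul, Finset.sum_smul, Finset.sum_neg_distrib, neg_eq_zero]
        rw [Finset.sum_comm]
        exact Finset.sum_eq_zero fun Q hQ => (hρ Q (Finset.mem_of_mem_erase hQ)).2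
    · have h3 : ρ' P = ρ P := by
        funext i
        simp only [hρ', if_neg hPT]
      rw [h3]
      exact hρ P hP
  have hsum' : ∀ i, ∑ P ∈ S, ρ' P i = 0 := by
    intro i
    rw [← Finset.add_sum_erase S _ hTS]
    have h3 : ∑ P ∈ S.erase T, ρ' P i = ∑ Q ∈ S.erase T, ρ Q i :=
      Finset.sum_congr rfl fun P hP => by simp only [hρ', if_neg (Finset.ne_of_mem_erase hP)]
    rw [h3]
    simp only [hρ', if_true, neg_add_cancel]
  have hgT : gT C S (fun P => Δ P u) ρ T.rep = gT C S (fun P => Δ P u) ρ' T.rep := by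
    unfold gT
    refine Finset.sum_congr rfl fun P hP => ?_
    by_cases hPT : P = T
    · subst hPT
      rw [gT_term_zero C _ _ P (hρ P hP).1, gT_term_zero C _ _ P (hrel' P hP).1]
    · simp only [hρ', if_neg hPT]
  rw [hgT]
  -- the functions at all points
  have hstep : ∀ P ∈ S, ∃ γ : k, gT C S (fun P => Δ P u) ρ' P.rep ^ 4 *
      algebraMap (F k) K (∏ i ∈ Finset.univ \ thr C P, ev (C.ℓ i)) =
      algebraMap k K γ * algebraMap (F k) K (∏ i ∈ thr C P, ev (C.ℓ i)) := fun P hP =>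
    y_step C hEv hCo hLo hU hCu hEx hOr hHa hPnt hConst hPow hTau hBas hCh hLC hLE hGlob K h2 P hR (hSM P hP) D S Δ
      hSM hReg hEq ρ' hrel' (fun i _ => hsum' i) u
  -- `T` is a combination of the other points
  have hTspan : T.rep ∈ Submodule.span k ((fun P : Pt k => P.rep) '' (S.erase T : Finset (Pt k))) := by
    have h3 : {x : Fin 3 → k | ∃ P ∈ C.M, P ≠ T ∧ x = P.rep} = (fun P : Pt k => P.rep) '' (S.erase T : Finset (Pt k)) := by
      ext x
      constructor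
      · rintro ⟨P, hP, hPT, rfl⟩
        exact ⟨P, Finset.mem_coe.2 (Finset.mem_erase.2 ⟨hPT, hMS P hP⟩), rfl⟩
      · rintro ⟨P, hP, rfl⟩
        have h4 := Finset.mem_erase.1 (Finset.mem_coe.1 hP)
        exact ⟨P, hSM P h4.2, h4.1, rfl⟩
    rw [← h3, hspn T]
    exact Submodule.mem_top
  obtain ⟨κ, hκ⟩ : ∃ κ : Pt k → k, ∑ P ∈ S.erase T, κ P • P.rep = T.rep :=
    (Submodule.mem_span_image_finset_iff_exists_fun' k).1 hTspan
  -- the sum
  set x : Pt k → K := fun P => if P = T then gT C S (fun P => Δ P u) ρ' T.rep else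
    -(algebraMap k K (κ P) * gT C S (fun P => Δ P u) ρ' P.rep) with hx
  have hxsum : ∑ P ∈ S, x P = 0 := by
    rw [← Finset.add_sum_erase S _ hTS]
    have h3 : ∑ P ∈ S.erase T, x P = -∑ P ∈ S.erase T, algebraMap k K (κ P) * gT C S (fun P => Δ P u) ρ' P.rep := by
      rw [← Finset.sum_neg_distrib]
      exact Finset.sum_congr rfl fun P hP => by simp only [hx, if_neg (Finset.ne_of_mem_erase hP)]
    rw [h3, ← gT_sum, hκ]
    simp only [hx, if_true, add_neg_cancel]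
  have hx4 : ∀ P ∈ S, ∃ γ : k, x P ^ 4 * algebraMap (F k) K (∏ i ∈ Finset.univ \ thr C P, ev (C.ℓ i)) =
      algebraMap k K γ * algebraMap (F k) K (∏ i ∈ thr C P, ev (C.ℓ i)) := by
    intro P hP
    obtain ⟨γ, hγ⟩ := hstep P hP
    by_cases hPT : P = T
    · subst hPT
      refine ⟨γ, ?_⟩
      simp only [hx, if_true]
      exact hγ
    · refine ⟨κ P ^ 4 * γ, ?_⟩
      simp only [hx, if_neg hPT, map_mul (algebraMap k K), map_pow (algebraMap k K)]
      rw [mul_assoc, ← hγ]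
      ring
  have h5 := y_kummer S x 4 (by norm_num) (by
    intro P hP
    obtain ⟨γ, hγ⟩ := hx4 P hP
    have h6 : algebraMap (F k) K (∏ i ∈ Finset.univ \ thr C P, ev (C.ℓ i)) ≠ 0 :=
      (map_ne_zero _).2 (Finset.prod_ne_zero_iff.2 fun i _ => y_ne C hEv i)
    refine ⟨algebraMap k (F k) γ * (∏ i ∈ thr C P, ev (C.ℓ i)) / (∏ i ∈ Finset.univ \ thr C P, ev (C.ℓ i)), ?_⟩
    rw [map_div₀, map_mul, ← IsScalarTower.algebraMap_apply, eq_div_iff h6]
    exact hγ) (by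
    intro P hP Q hQ hPQ hxP hxQ f
    obtain ⟨γ, hγ⟩ := hx4 P hP
    obtain ⟨δ, hδ⟩ := hx4 Q hQ
    exact y_ratio C hEv hCo hLo hU hCu hBas h2 P Q (hSM P hP) (hSM Q hQ) hPQ (x P) (x Q) hxP hxQ γ δ hγ hδ f) hxsum T hTS
  simpa [hx] using h5

/-- Case 2: the point `T` itself is missing, the vector fields are invariant under `NP K T`. -/
theorem y_case2 (hEv : EvStmt) (hCo : CoordStmt) (hLo : LocStmt) (hU : UnifStmt) (hCu : CurveStmt) (hEx : ExcStmt)
    (hOr : OrdStmt) (hHa : HartAStmt) (hPnt : PntStmt) (hConst : ConstStmt) (hPow : PowStmt) (hTau : TauStmt)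
    (hBas : BasStmt) (hCh : ChartExStmt) (hLC : LocCurveStmt) (hLE : LocExcStmt) (hGlob : GlobStmt) (hFix : FixStmt)
    [CharZero k] [IsAlgClosed k]
    (K : Type) [Field K] [Algebra (F k) K] [Algebra k K] [IsScalarTower k (F k) K] [FiniteDimensional (F k) K]
    [IsGalois (F k) K]
    (h2 : ∀ i, ∃ P ∈ C.M, ∃ Q ∈ C.M, P ≠ Q ∧ i ∈ C.through P ∧ i ∈ C.through Q)
    (T : Pt k) (hR : Roots K C 4) (hT : T ∈ C.M)
    (D : Chart C → Chart C → Derivation k K K) (S : Finset (Pt k)) (Δ : Pt k → Chart C → Derivation k K K)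
    (hSM : ∀ P ∈ S, P ∈ C.M)
    (hReg : ∀ P ∈ S, ∀ u O, IsDiv C O → u.R ≤ O → RegAt C 4 P O (Δ P u))
    (hEq : ∀ P ∈ S, ∀ u v, EqOn P (D u v) (Δ P v - Δ P u))
    (hinv : ∀ P ∈ S, ∀ u, ∀ g ∈ NP K T, conjD g (Δ P u) = Δ P u)
    (ρ : Pt k → Fin 6 → k) (hρ : ∀ P ∈ S, C.IsRel P (ρ P)) (hsum : ∀ i, C.ℓ i ⬝ᵥ T.rep ≠ 0 → ∑ P ∈ S, ρ P i = 0)
    (u : Chart C) : gT C S (fun P => Δ P u) ρ T.rep = 0 := by
  classical
  obtain ⟨γ, hγ⟩ := y_step C hEv hCo hLo hU hCu hEx hOr hHa hPnt hConst hPow hTau hBas hCh hLC hLE hGlob K h2 T hR hT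
    D S Δ hSM hReg hEq ρ hρ hsum u
  set g := gT C S (fun P => Δ P u) ρ T.rep with hg
  have hne := y_ne C hEv
  have hprod : ∀ X : Finset (Fin 6), (∏ i ∈ X, ev (C.ℓ i)) ≠ 0 := fun X => Finset.prod_ne_zero_iff.2 fun i _ => hne i
  -- `g` is invariant
  have hginv : ∀ σ ∈ NP K T, σ g = g := by
    intro σ hσ
    rw [hg]
    unfold gT
    rw [map_sum]
    refine Finset.sum_congr rfl fun P hP => ?_
    rw [map_sum]
    refine Finset.sum_congr rfl fun i _ => ?_
    rw [map_mul, map_div₀, AlgEquiv.commutes, IsScalarTower.algebraMap_apply k (F k) K, AlgEquiv.commutes]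
    have h3 : σ (Δ P u (algebraMap (F k) K (ev (C.ℓ i)))) = Δ P u (algebraMap (F k) K (ev (C.ℓ i))) := by
      have h4 := congrArg (fun X : Derivation k K K => X (algebraMap (F k) K (ev (C.ℓ i)))) (hinv P hP u σ hσ)
      have h5 : conjD σ (Δ P u) (algebraMap (F k) K (ev (C.ℓ i))) =
          σ (Δ P u (σ.symm (algebraMap (F k) K (ev (C.ℓ i))))) := rfl
      simp only [h5, AlgEquiv.commutes] at h4
      exact h4
    rw [h3]
  -- the exceptional curve over `T`
  obtain ⟨⟨O, hO⟩, -⟩ := hEx k T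
  obtain ⟨c, d, hcd, hc, hd⟩ := (hPnt k).2.2.2.2 T
  obtain ⟨b, hb⟩ : ∃ b : Fin 3 → k, b ⬝ᵥ T.rep ≠ 0 := by
    by_contra hno
    push Not at hno
    apply T.rep_nonzero
    ext a
    have := hno (Pi.single a 1)
    rwa [single_dotProduct, one_mul] at this
  have hc0 : c ≠ 0 := hcd.ne_zero 0
  have heb : ev b ≠ 0 := fun h => by
    have := ((hEv k).2.2 b).1 h
    rw [this, zero_dotProduct] at hb
    exact hb rfl
  have hec : ev c ≠ 0 := fun h => hc0 (((hEv k).2.2 c).1 h)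
  have hπ : IsUnif O (ev c / ev b) := ((hEx k T).2 O hO).2.2.1 b c hb hc0 hc
  have hu := y_units C hEv hEx T O hO b c hb hc0 hc
  have hA3 : (thr C T).card = 3 := y_comb1 C hBas h2 T hT
  have hB3 : (Finset.univ \ thr C T).card = 3 := by
    rw [Finset.card_sdiff_of_subset (Finset.subset_univ _), Finset.card_univ, Fintype.card_fin, hA3]
  set t := ev c / ev b with ht
  have ht0 : t ≠ 0 := div_ne_zero hec heb
  have htK : algebraMap (F k) K t ≠ 0 := (map_ne_zero _).2 ht0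
  -- the unit
  set ε : F k := (∏ i ∈ thr C T, ev (C.ℓ i)) / (∏ i ∈ Finset.univ \ thr C T, ev (C.ℓ i)) / t ^ 3 with hε
  have hε1 : ε = (∏ i ∈ thr C T, ev (C.ℓ i) / (if i ∈ thr C T then ev c else ev b)) *
      (∏ i ∈ Finset.univ \ thr C T, (if i ∈ thr C T then ev c else ev b) / ev (C.ℓ i)) := by
    rw [Finset.prod_div_distrib, Finset.prod_div_distrib]
    rw [Finset.prod_congr (s₁ := Finset.univ \ thr C T) rfl (g := fun _ => ev b)
      (fun i hi => if_neg (Finset.mem_sdiff.1 hi).2)]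
    rw [Finset.prod_congr (s₁ := thr C T) rfl (g := fun _ => ev c) (fun i hi => if_pos hi)]
    rw [Finset.prod_const, Finset.prod_const, hA3, hB3, hε, ht]
    have e1 := hprod (thr C T)
    have e2 := hprod (Finset.univ \ thr C T)
    field_simp
  have hεO : ε ∈ O := by
    rw [hε1]
    exact O.mul_mem (Subalgebra.prod_mem O fun i _ => (hu i).1) (Subalgebra.prod_mem O fun i _ => (hu i).2)
  have hεiO : ε⁻¹ ∈ O := by
    rw [hε1, mul_inv, ← Finset.prod_inv_distrib, ← Finset.prod_inv_distrib]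
    refine O.mul_mem (Subalgebra.prod_mem O fun i _ => ?_) (Subalgebra.prod_mem O fun i _ => ?_)
    · rw [inv_div]
      exact (hu i).2
    · rw [inv_div]
      exact (hu i).1
  have hε0 : ε ≠ 0 := by
    rw [hε]
    exact div_ne_zero (div_ne_zero (hprod _) (hprod _)) (pow_ne_zero 3 ht0)
  -- `g ^ 4 = γ ε t ^ 3`
  have hg4 : g ^ 4 = algebraMap (F k) K (algebraMap k (F k) γ * (ε * t ^ 3)) := by
    have h6 : algebraMap (F k) K (∏ i ∈ Finset.univ \ thr C T, ev (C.ℓ i)) ≠ 0 := (map_ne_zero _).2 (hprod _)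
    have h7 : ε * t ^ 3 = (∏ i ∈ thr C T, ev (C.ℓ i)) / (∏ i ∈ Finset.univ \ thr C T, ev (C.ℓ i)) := by
      rw [hε, div_mul_cancel₀ _ (pow_ne_zero 3 ht0)]
    rw [h7, map_mul, map_div₀, ← IsScalarTower.algebraMap_apply, ← mul_div_assoc, eq_div_iff h6]
    exact hγ
  have halg : ∀ f ∈ O, algebraMap (F k) K f ∈ ic K O := fun f hf =>
    isIntegral_algebraMap (R := O) (A := K) (x := ⟨f, hf⟩)
  have hx := hFix k 4 K T O b c (g / algebraMap (F k) K t) (by norm_num) hO hb hc0 hc (by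
    intro σ hσ
    rw [map_div₀, AlgEquiv.commutes, hginv σ hσ]) (by
    have h8 : algebraMap (F k) K (ev c / ev b) * (g / algebraMap (F k) K t) ^ 4 =
        algebraMap (F k) K (algebraMap k (F k) γ * ε) := by
      rw [← ht, div_pow, hg4, map_mul, map_mul, map_mul, map_pow]
      field_simp
    rw [h8]
    exact halg _ (O.mul_mem (O.algebraMap_mem _) hεO))
  -- the fourth power
  have h9 : algebraMap (F k) K (algebraMap k (F k) γ * (ε / t)) ∈ ic K O := by
    have h10 : algebraMap (F k) K (algebraMap k (F k) γ * (ε / t)) = (g / algebraMap (F k) K t) ^ 4 := by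
      rw [div_pow, hg4, map_mul, map_mul, map_div₀, map_mul, map_pow]
      field_simp
    rw [h10]
    exact (ic K O).pow_mem hx 4
  have h11 : algebraMap k (F k) γ * (ε / t) ∈ O := by
    apply (hU k O t hπ).2.1
    have h12 : IsIntegral O (algebraMap (F k) K (algebraMap k (F k) γ * (ε / t))) := h9
    exact (isIntegral_algebraMap_iff (algebraMap (F k) K).injective).1 h12
  have hγ0 : γ = 0 := by
    by_contra hγ0
    apply hπ.2.1
    have h13 : t⁻¹ = algebraMap k (F k) γ⁻¹ * ε⁻¹ * (algebraMap k (F k) γ * (ε / t)) := by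
      have h14 : algebraMap k (F k) γ ≠ 0 := (map_ne_zero _).2 hγ0
      rw [map_inv₀]
      field_simp
    rw [h13]
    exact O.mul_mem (O.mul_mem (O.algebraMap_mem _) hεiO) h11
  rw [hγ0, map_zero, zero_mul, map_zero] at hg4
  exact pow_eq_zero_iff (by norm_num) |>.1 hg4

/-- Case 3: another point is missing. -/
theorem y_case3 (hBas : BasStmt) {K : Type} [Field K] [Algebra (F k) K] [Algebra k K]
    (h2 : ∀ i, ∃ P ∈ C.M, ∃ Q ∈ C.M, P ≠ Q ∧ i ∈ C.through P ∧ i ∈ C.through Q)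
    (T P₀ : Pt k) (hT : T ∈ C.M) (hP₀ : P₀ ∈ C.M) (hTP : T ≠ P₀) (S : Finset (Pt k)) (Δ : Pt k → Derivation k K K)
    (hSM : ∀ P ∈ S, P ∈ C.M) (hP₀S : P₀ ∉ S) (ρ : Pt k → Fin 6 → k) (hρ : ∀ P ∈ S, C.IsRel P (ρ P))
    (hsum : ∀ i, C.ℓ i ⬝ᵥ T.rep ≠ 0 → ∑ P ∈ S, ρ P i = 0) : gT C S Δ ρ T.rep = 0 := by
  classical
  unfold gT
  refine Finset.sum_eq_zero fun P hP => ?_
  by_cases hPT : P = T
  · subst hPT
    exact gT_term_zero C _ _ P (hρ P hP).1
  have hPP : P ≠ P₀ := fun h => hP₀S (h ▸ hP)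
  have hPM := hSM P hP
  -- the line through `P` and `P₀`
  have h3 := y_comb2 C hBas h2 P hPM P₀ hP₀ hPP
  obtain ⟨i, hi⟩ := Finset.card_pos.1 (show 0 < (thr C P ∩ thr C P₀).card by omega)
  rw [Finset.mem_inter, mem_thr, mem_thr] at hi
  have hiT : i ∉ C.through T := by
    intro h
    rcases y_comb3 C hBas i P P₀ T hPM hP₀ hT hi.1 hi.2 h hPP with h4 | h4
    · exact hPT h4.symm
    · exact hTP h4
  have hρi : ρ P i = 0 := by
    have h4 := hsum i hiT
    rw [Finset.sum_eq_single P] at h4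
    · exact h4
    · intro Q hQ hQP
      by_cases hiQ : i ∈ C.through Q
      · exfalso
        rcases y_comb3 C hBas i P P₀ Q hPM hP₀ (hSM Q hQ) hi.1 hi.2 hiQ hPP with h5 | h5
        · exact hQP h5
        · exact hP₀S (h5 ▸ hQ)
      · exact (hρ Q hQ).1 i hiQ
    · intro h
      exact absurd hP h
  -- the relation has at most two terms
  have hcard := y_comb1 C hBas h2 P hPM
  have h4 : (thr C P \ {i}).card = 2 := by
    rw [Finset.card_sdiff_of_subset (Finset.singleton_subset_iff.2 ((mem_thr C P i).2 hi.1)), Finset.card_singleton, hcard]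
  obtain ⟨a, b, hab, hs⟩ := Finset.card_eq_two.1 h4
  have hsupp : ∀ j, j ≠ a → j ≠ b → ρ P j = 0 := by
    intro j hja hjb
    by_cases hj : j ∈ C.through P
    · by_cases hji : j = i
      · rw [hji]; exact hρi
      · exfalso
        have h5 : j ∈ thr C P \ {i} := by
          rw [Finset.mem_sdiff, Finset.mem_singleton]
          exact ⟨(mem_thr C P j).2 hj, hji⟩
        rw [hs, Finset.mem_insert, Finset.mem_singleton] at h5
        rcases h5 with h5 | h5
        · exact hja h5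
        · exact hjb h5
    · exact (hρ P hP).1 j hj
  have h5 : ρ P a • C.ℓ a + ρ P b • C.ℓ b = 0 := by
    rw [← (hρ P hP).2]
    have h6 : ∑ j, ρ P j • C.ℓ j = ∑ j ∈ ({a, b} : Finset (Fin 6)), ρ P j • C.ℓ j := by
      symm
      apply Finset.sum_subset (Finset.subset_univ _)
      intro j _ hj
      rw [Finset.mem_insert, Finset.mem_singleton, not_or] at hj
      rw [hsupp j hj.1 hj.2, zero_smul]
    rw [h6, Finset.sum_pair hab]
  have h6 := LinearIndependent.pair_iff.1 (C.indep a b hab) _ _ h5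
  have h7 : ∀ j, ρ P j = 0 := by
    intro j
    by_cases hja : j = a
    · rw [hja]; exact h6.1
    by_cases hjb : j = b
    · rw [hjb]; exact h6.2
    exact hsupp j hja hjb
  refine Finset.sum_eq_zero fun j _ => ?_
  rw [h7 j, zero_mul, map_zero, zero_mul]

/-- **The conclusion of `VanStmt` for six lines and `n = 4`.** -/
theorem y_van (hEv : EvStmt) (hCo : CoordStmt) (hLo : LocStmt) (hU : UnifStmt) (hCu : CurveStmt) (hEx : ExcStmt)
    (hOr : OrdStmt) (hHa : HartAStmt) (hPnt : PntStmt) (hConst : ConstStmt) (hPow : PowStmt) (hTau : TauStmt)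
    (hBas : BasStmt) (hCh : ChartExStmt) (hLC : LocCurveStmt) (hLE : LocExcStmt) (hGlob : GlobStmt) (hFix : FixStmt)
    [CharZero k] [IsAlgClosed k]
    (K : Type) [Field K] [Algebra (F k) K] [Algebra k K] [IsScalarTower k (F k) K] [FiniteDimensional (F k) K]
    [IsGalois (F k) K]
    (h2 : ∀ i, ∃ P ∈ C.M, ∃ Q ∈ C.M, P ≠ Q ∧ i ∈ C.through P ∧ i ∈ C.through Q)
    (hspn : ∀ P₀ : Pt k, Submodule.span k {x : Fin 3 → k | ∃ P ∈ C.M, P ≠ P₀ ∧ x = P.rep} = ⊤)
    (T : Pt k) (hR : Roots K C 4) (hT : T ∈ C.M) (P₀ : Pt k)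
    (D : Chart C → Chart C → Derivation k K K) (S : Finset (Pt k)) (Δ : Pt k → Chart C → Derivation k K K)
    (hSM : ∀ P ∈ S, P ∈ C.M) (hMS : ∀ P ∈ C.M, P ≠ P₀ → P ∈ S)
    (hReg : ∀ P ∈ S, ∀ u O, IsDiv C O → u.R ≤ O → RegAt C 4 P O (Δ P u))
    (hEq : ∀ P ∈ S, ∀ u v, EqOn P (D u v) (Δ P v - Δ P u))
    (hcase : (∀ P ∈ C.M, P ∈ S) ∨ ∀ P ∈ S, ∀ u, ∀ g ∈ NP K P₀, conjD g (Δ P u) = Δ P u)
    (ρ : Pt k → Fin 6 → k) (hρ : ∀ P ∈ S, C.IsRel P (ρ P)) (hsum : ∀ i, C.ℓ i ⬝ᵥ T.rep ≠ 0 → ∑ P ∈ S, ρ P i = 0)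
    (u : Chart C) : gT C S (fun P => Δ P u) ρ T.rep = 0 := by
  by_cases hall : ∀ P ∈ C.M, P ∈ S
  · exact y_case1 C hEv hCo hLo hU hCu hEx hOr hHa hPnt hConst hPow hTau hBas hCh hLC hLE hGlob K h2 hspn T hR hT D S Δ
      hSM hall hReg hEq ρ hρ hsum u
  · have hinv := hcase.resolve_left hall
    push Not at hall
    obtain ⟨P, hP, hPS⟩ := hall
    have hPP : P = P₀ := by
      by_contra h
      exact hPS (hMS P hP h)
    subst hPP
    by_cases hTP : T = P
    · subst hTP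
      exact y_case2 C hEv hCo hLo hU hCu hEx hOr hHa hPnt hConst hPow hTau hBas hCh hLC hLE hGlob hFix K h2 T hR hT D S Δ
        hSM hReg hEq hinv ρ hρ hsum u
    · exact y_case3 C hBas h2 T P hT hP hTP S (fun P => Δ P u) hSM hPS ρ hρ hsum

end vanq

end Pool.Agent.Lib.MP_4318ff_ag
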